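import Mathlib

/-!
# Minimal geodesics and an open non-branching subset

`GeodOn γ a b` : the curve `γ` restricted to `[a, b]` is a minimal geodesic parametrised by arc
length.  `NonBranchingAt p` : minimal geodesics do not branch at the point `p`.
-/

open Set Metric Filter Topology

namespace KEReg

variable {X : Type*} [MetricSpace X]

/-- `γ` restricted to `[a, b]` is a minimal geodesic parametrised by arc length. -/
def GeodOn (γ : ℝ → X) (a b : ℝ) : Prop :=
  ∀ s ∈ Icc a b, ∀ t ∈ Icc a b, dist (γ s) (γ t) = |s - t|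

/-- Minimal geodesics do not branch at `p`: two minimal geodesics through `p` which agree before
`p` agree for a short time after `p`. -/
def NonBranchingAt (p : X) : Prop :=
  ∀ (γ σ : ℝ → X) (a b c : ℝ), a < b → b < c → GeodOn γ a c → GeodOn σ a c → γ b = p →
    (∀ s ∈ Icc a b, γ s = σ s) → ∃ ε > 0, ∀ s ∈ Icc b (b + ε), s ≤ c → γ s = σ s

theorem GeodOn.mono {γ : ℝ → X} {a b a' b' : ℝ} (h : GeodOn γ a b) (ha : a ≤ a') (hb : b' ≤ b) :
    GeodOn γ a' b' :=
  fun s hs t ht => h s ⟨ha.trans hs.1, hs.2.trans hb⟩ t ⟨ha.trans ht.1, ht.2.trans hb⟩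

theorem GeodOn.continuousOn {γ : ℝ → X} {a b : ℝ} (h : GeodOn γ a b) :
    ContinuousOn γ (Icc a b) := by
  rw [Metric.continuousOn_iff]
  intro t ht ε hε
  exact ⟨ε, hε, fun s hs hst => by rw [h s hs t ht]; simpa [Real.dist_eq] using hst⟩

/-- Concatenation of two minimal geodesics whose total length is the distance of the endpoints. -/
theorem GeodOn.concat {f g : ℝ → X} {a b c : ℝ} (hab : a ≤ b) (hbc : b ≤ c) (hf : GeodOn f a b)
    (hg : GeodOn g b c) (hfg : f b = g b) (hd : dist (f a) (g c) = c - a) :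
    GeodOn (fun r => if r ≤ b then f r else g r) a c := by
  have key : ∀ s t, s ∈ Icc a b → t ∈ Icc b c → dist (f s) (g t) = t - s := by
    intro s t hs ht
    have h1 : dist (f s) (f b) = b - s := by
      rw [hf s hs b ⟨hab, le_rfl⟩, abs_of_nonpos (by linarith [hs.2])]; ring
    have h2 : dist (g b) (g t) = t - b := by
      rw [hg b ⟨le_rfl, hbc⟩ t ht, abs_of_nonpos (by linarith [ht.1])]; ring
    have h3 : dist (f a) (f s) = s - a := by
      rw [hf a ⟨le_rfl, hab⟩ s hs, abs_of_nonpos (by linarith [hs.1])]; ring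
    have h4 : dist (g t) (g c) = c - t := by
      rw [hg t ht c ⟨hbc, le_rfl⟩, abs_of_nonpos (by linarith [ht.2])]; ring
    have h5 : dist (f s) (g t) ≤ t - s := by
      calc dist (f s) (g t) ≤ dist (f s) (f b) + dist (f b) (g t) := dist_triangle _ _ _
        _ = t - s := by rw [h1, hfg, h2]; ring
    have h6 : c - a ≤ (s - a) + dist (f s) (g t) + (c - t) := by
      calc c - a = dist (f a) (g c) := hd.symm
        _ ≤ dist (f a) (f s) + dist (f s) (g t) + dist (g t) (g c) := dist_triangle4 _ _ _ _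
        _ = _ := by rw [h3, h4]
    linarith
  intro s hs t ht
  by_cases h1 : s ≤ b <;> by_cases h2 : t ≤ b <;> simp only [h1, h2, if_true, if_false]
  · exact hf s ⟨hs.1, h1⟩ t ⟨ht.1, h2⟩
  · push Not at h2
    rw [key s t ⟨hs.1, h1⟩ ⟨h2.le, ht.2⟩, abs_of_nonpos (by linarith)]; ring
  · push Not at h1
    rw [dist_comm, key t s ⟨ht.1, h2⟩ ⟨h1.le, hs.2⟩, abs_of_nonneg (by linarith)]
  · push Not at h1 h2
    exact hg s ⟨h1.le, hs.2⟩ t ⟨h2.le, ht.2⟩

/-- Time reversal. -/
theorem GeodOn.reverse {γ : ℝ → X} {L : ℝ} (h : GeodOn γ 0 L) :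
    GeodOn (fun r => γ (L - r)) 0 L := by
  intro s hs t ht
  rw [h (L - s) ⟨by linarith [hs.2], by linarith [hs.1]⟩ (L - t)
    ⟨by linarith [ht.2], by linarith [ht.1]⟩, abs_sub_comm]
  congr 1; ring

/-- Two minimal geodesics which agree on `[a, b]` agree as long as the first one stays in a set of
points at which minimal geodesics do not branch, and also at the first exit time. -/
theorem eqOn_of_nonBranching {R : Set X} (hR : ∀ p ∈ R, NonBranchingAt p) {γ σ : ℝ → X}
    {a b c e : ℝ} (hab : a < b) (hec : e ≤ c) (hγ : GeodOn γ a c)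
    (hσ : GeodOn σ a c) (heq : ∀ s ∈ Icc a b, γ s = σ s) (hin : ∀ s ∈ Ico b e, γ s ∈ R) :
    ∀ s ∈ Icc a e, γ s = σ s := by
  let S : Set ℝ := {t | ∀ r ∈ Icc a t, γ r = σ r}
  have hcγ := hγ.continuousOn
  have hcσ := hσ.continuousOn
  have hsub : Icc b e ⊆ S := by
    have hclosed : IsClosed (S ∩ Icc b e) := by
      rw [← isSeqClosed_iff_isClosed]
      intro u t hu hut
      have ht : t ∈ Icc b e := isClosed_Icc.mem_of_tendsto hut (Eventually.of_forall
        fun n => (hu n).2)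
      refine ⟨?_, ht⟩
      intro r hr
      rcases lt_or_eq_of_le hr.2 with h | h
      · obtain ⟨n, hn⟩ := ((tendsto_order.1 hut).1 r h).exists
        exact (hu n).1 r ⟨hr.1, hn.le⟩
      · subst h
        have hmem : ∀ n, u n ∈ Icc a c := fun n =>
          ⟨hab.le.trans (hu n).2.1, (hu n).2.2.trans hec⟩
        have htc : r ∈ Icc a c := ⟨hab.le.trans ht.1, ht.2.trans hec⟩
        have h1 : Tendsto (fun n => γ (u n)) atTop (𝓝 (γ r)) :=
          (hcγ r htc).tendsto.comp (tendsto_nhdsWithin_iff.2 ⟨hut, Eventually.of_forall hmem⟩)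
        have h2 : Tendsto (fun n => σ (u n)) atTop (𝓝 (σ r)) :=
          (hcσ r htc).tendsto.comp (tendsto_nhdsWithin_iff.2 ⟨hut, Eventually.of_forall hmem⟩)
        have h3 : (fun n => γ (u n)) = fun n => σ (u n) := by
          funext n
          exact (hu n).1 (u n) ⟨hab.le.trans (hu n).2.1, le_rfl⟩
        rw [h3] at h1
        exact tendsto_nhds_unique h1 h2
    apply hclosed.Icc_subset_of_forall_exists_gt
    · exact heq
    · intro x hx y hy
      obtain ⟨hxS, hxb, hxe⟩ := hx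
      obtain ⟨ε, hε, h⟩ := hR (γ x) (hin x ⟨hxb, hxe⟩) γ σ a x c (hab.trans_le hxb)
        (hxe.trans_le hec) hγ hσ rfl hxS
      have hy' : x < y := hy
      refine ⟨min (min (x + ε) e) y, ?_, ?_, ?_⟩
      · intro r hr
        rcases le_or_gt r x with h1 | h1
        · exact hxS r ⟨hr.1, h1⟩
        · apply h r ⟨h1.le, hr.2.trans ((min_le_left _ _).trans (min_le_left _ _))⟩
          exact (hr.2.trans ((min_le_left _ _).trans (min_le_right _ _))).trans hec
      · exact lt_min (lt_min (by linarith) hxe) hy'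
      · exact min_le_right _ _
  intro s hs
  rcases le_or_gt s b with h | h
  · exact heq s ⟨hs.1, h⟩
  · exact hsub ⟨h.le, hs.2⟩ s ⟨hs.1, le_rfl⟩

/-- The key step: if every point `z` near `y` can be joined to `x` by a minimal geodesic inside the
open set `R`, then every minimal geodesic from `x` to `y` lies in `R`. -/
theorem mem_of_eventually_weak {R : Set X} (hRo : IsOpen R) (hR : ∀ p ∈ R, NonBranchingAt p)
    {x y : X} {U : Set X} (hU : U ∈ 𝓝 y)
    (hweak : ∀ z ∈ U, ∃ σ : ℝ → X, GeodOn σ 0 (dist x z) ∧ σ 0 = x ∧ σ (dist x z) = z ∧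
      ∀ s ∈ Icc 0 (dist x z), σ s ∈ R)
    {γ : ℝ → X} {L : ℝ} (hL : 0 ≤ L) (hγ : GeodOn γ 0 L) (h0 : γ 0 = x) (h1 : γ L = y) :
    ∀ s ∈ Icc 0 L, γ s ∈ R := by
  by_contra hcon
  push Not at hcon
  obtain ⟨s₀, hs₀, hs₀R⟩ := hcon
  have hcγ := hγ.continuousOn
  -- the closed set of bad times
  let K : Set ℝ := Icc 0 L ∩ γ ⁻¹' Rᶜ
  have hK : IsClosed K := hcγ.preimage_isClosed_of_isClosed isClosed_Icc hRo.isClosed_compl
  have hKc : IsCompact K := isCompact_Icc.of_isClosed_subset hK inter_subset_left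
  have hKne : K.Nonempty := ⟨s₀, hs₀, hs₀R⟩
  obtain ⟨t, htK, htmax⟩ := hKc.exists_isGreatest hKne
  have htL : t ≤ L := htK.1.2
  -- the endpoints are in `R`
  have hyR : y ∈ R := by
    obtain ⟨σ, -, -, h3, h4⟩ := hweak y (mem_of_mem_nhds hU)
    rw [← h3]; exact h4 _ ⟨dist_nonneg, le_rfl⟩
  have htL' : t < L := by
    rcases lt_or_eq_of_le htL with h | h
    · exact h
    · exfalso; apply htK.2; change γ t ∈ R; rw [h, h1]; exact hyR
  -- choose a time `s` in `(t, L)` with `γ s ∈ U`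
  have hcL : ContinuousWithinAt γ (Icc 0 L) L := hcγ L ⟨hL, le_rfl⟩
  have hev : ∀ᶠ s in 𝓝[Icc 0 L] L, γ s ∈ U := by
    apply hcL; rw [h1]; exact hU
  have hev2 : ∀ᶠ s in 𝓝[Iio L] L, γ s ∈ U := by
    have : 𝓝[Iio L] L ≤ 𝓝[Icc 0 L] L := by
      rw [nhdsWithin_le_iff]
      have : Ioo t L ∈ 𝓝[<] L := Ioo_mem_nhdsLT htL'
      filter_upwards [this] with r hr
      exact ⟨htK.1.1.trans hr.1.le, hr.2.le⟩
    exact this hev
  obtain ⟨s, hsU, hst, hsL⟩ : ∃ s, γ s ∈ U ∧ t < s ∧ s < L := by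
    obtain ⟨s, hs1, hs2⟩ := (hev2.and (Ioo_mem_nhdsLT htL')).exists
    exact ⟨s, hs1, hs2.1, hs2.2⟩
  have ht0 : 0 ≤ t := htK.1.1
  have hs0 : 0 < s := lt_of_le_of_lt ht0 hst
  have hds : dist x (γ s) = s := by
    rw [← h0, hγ 0 ⟨le_rfl, hL⟩ s ⟨hs0.le, hsL.le⟩, abs_of_nonpos (by linarith)]; ring
  obtain ⟨σ, hσ1, hσ2, hσ3, hσ4⟩ := hweak (γ s) hsU
  rw [hds] at hσ1 hσ3 hσ4
  -- concatenate
  have hdL : dist (σ 0) (γ L) = L - 0 := by
    rw [hσ2, ← h0, hγ 0 ⟨le_rfl, hL⟩ L ⟨hL, le_rfl⟩, abs_of_nonpos (by linarith)]; ring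
  have hcat := GeodOn.concat hs0.le hsL.le hσ1 (hγ.mono hs0.le le_rfl) hσ3 hdL
  have hrev1 := hγ.reverse
  have hrev2 := hcat.reverse
  have hfin := eqOn_of_nonBranching hR (a := 0) (b := L - s) (e := L - t) (c := L)
    (by linarith) (by linarith) hrev1 hrev2 ?_ ?_ (L - t) ⟨by linarith, le_rfl⟩
  · simp only [sub_sub_cancel] at hfin
    rw [if_pos hst.le] at hfin
    apply htK.2
    change γ t ∈ R
    rw [hfin]
    exact hσ4 t ⟨ht0, hst.le⟩
  · intro r hr
    have h2 : s ≤ L - r := by linarith [hr.2]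
    rcases eq_or_lt_of_le h2 with h | h
    · simp only [← h, le_refl, if_true]
      exact hσ3.symm
    · simp only [not_le.2 h, if_false]
  · intro r hr
    by_contra hcon
    have hmem : L - r ∈ K := by
      refine ⟨⟨by linarith [hr.2], by linarith [hr.1, hsL]⟩, hcon⟩
    have := htmax hmem
    linarith [hr.2]

end KEReg
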