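import Pool.Agent.KEReg.Basic

/-!
# Minimal geodesics as paths whose length is the distance of the endpoints
-/

open Set Metric Filter Topology
open scoped ENNReal

namespace KEReg

variable {X : Type*} [MetricSpace X]

/-- A minimal geodesic from `x` to `y`: a continuous path whose length is the distance. -/
def IsMinimal {x y : X} (c : Path x y) : Prop := eVariationOn c univ = edist x y

theorem IsMinimal.key {x y : X} {c : Path x y} (hc : IsMinimal c) {s t : unitInterval}
    (hst : s ≤ t) : dist x (c s) + dist (c s) (c t) + dist (c t) y ≤ dist x y := by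
  have h1 : edist x (c s) ≤ eVariationOn c (Icc 0 s) := by
    have := eVariationOn.edist_le c (s := Icc 0 s) (x := 0) (y := s)
      ⟨le_rfl, s.2.1⟩ ⟨s.2.1, le_rfl⟩
    rwa [c.source] at this
  have h2 : edist (c s) (c t) ≤ eVariationOn c (Icc s t) :=
    eVariationOn.edist_le c ⟨le_rfl, hst⟩ ⟨hst, le_rfl⟩
  have h3 : edist (c t) y ≤ eVariationOn c (Icc t 1) := by
    have := eVariationOn.edist_le c (s := Icc t 1) (x := t) (y := 1)
      ⟨le_rfl, t.2.2⟩ ⟨t.2.2, le_rfl⟩
    rwa [c.target] at this
  have h4 : eVariationOn c (Icc 0 s) + eVariationOn c (Icc s t) ≤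
      eVariationOn c (Icc 0 s ∪ Icc s t) :=
    eVariationOn.add_le_union c fun a ha b hb => ha.2.trans hb.1
  have h5 : eVariationOn c (Icc 0 s ∪ Icc s t) + eVariationOn c (Icc t 1) ≤
      eVariationOn c ((Icc 0 s ∪ Icc s t) ∪ Icc t 1) := by
    apply eVariationOn.add_le_union c
    rintro a (ha | ha) b hb
    · exact (ha.2.trans hst).trans hb.1
    · exact ha.2.trans hb.1
  have h6 : edist x (c s) + edist (c s) (c t) + edist (c t) y ≤ edist x y := by
    calc edist x (c s) + edist (c s) (c t) + edist (c t) y ≤
        eVariationOn c (Icc 0 s) + eVariationOn c (Icc s t) + eVariationOn c (Icc t 1) := by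
          gcongr
      _ ≤ eVariationOn c (Icc 0 s ∪ Icc s t) + eVariationOn c (Icc t 1) := by gcongr
      _ ≤ eVariationOn c ((Icc 0 s ∪ Icc s t) ∪ Icc t 1) := h5
      _ ≤ eVariationOn c univ := eVariationOn.mono c (subset_univ _)
      _ = edist x y := hc
  rw [edist_dist, edist_dist, edist_dist, edist_dist, ← ENNReal.ofReal_add dist_nonneg dist_nonneg,
    ← ENNReal.ofReal_add (by positivity) dist_nonneg,
    ENNReal.ofReal_le_ofReal_iff dist_nonneg] at h6
  exact h6

theorem IsMinimal.dist_eq {x y : X} {c : Path x y} (hc : IsMinimal c) {s t : unitInterval}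
    (hst : s ≤ t) : dist (c s) (c t) = dist x (c t) - dist x (c s) := by
  have h1 := hc.key hst
  have h2 := dist_triangle x (c t) y
  have h3 := dist_triangle x (c s) (c t)
  linarith

/-- Arc length parametrisation of a minimal geodesic. -/
theorem IsMinimal.exists_geodOn {x y : X} {c : Path x y} (hc : IsMinimal c) :
    ∃ γ : ℝ → X, GeodOn γ 0 (dist x y) ∧ γ 0 = x ∧ γ (dist x y) = y ∧
      γ '' Icc 0 (dist x y) = range c := by
  have hcont : Continuous fun t : unitInterval => dist x (c t) :=
    continuous_const.dist c.continuous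
  have hex : ∀ r : ℝ, r ∈ Icc 0 (dist x y) → ∃ t : unitInterval, dist x (c t) = r := by
    intro r hr
    have h1 := intermediate_value_univ (0 : unitInterval) 1 hcont
    have h2 : dist x (c 0) = 0 := by rw [c.source, dist_self]
    have h3 : dist x (c 1) = dist x y := by rw [c.target]
    simp only [h2, h3] at h1
    exact h1 hr
  have : ∃ τ : ℝ → unitInterval, ∀ r ∈ Icc 0 (dist x y), dist x (c (τ r)) = r := by
    classical
    refine ⟨fun r => if h : r ∈ Icc 0 (dist x y) then (hex r h).choose else 0, ?_⟩
    intro r hr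
    simp only [hr, dif_pos]
    exact (hex r hr).choose_spec
  obtain ⟨τ, hτ⟩ := this
  have hdist : ∀ s t : unitInterval, dist (c s) (c t) = |dist x (c s) - dist x (c t)| := by
    intro s t
    rcases le_total s t with h | h
    · have h1 := hc.dist_eq h
      rw [h1, abs_sub_comm, abs_of_nonneg]
      rw [← h1]; exact dist_nonneg
    · have h1 := hc.dist_eq h
      rw [dist_comm, h1, abs_of_nonneg]
      rw [← h1]; exact dist_nonneg
  refine ⟨fun r => c (τ r), ?_, ?_, ?_, ?_⟩
  · intro r hr r' hr'
    rw [hdist, hτ r hr, hτ r' hr']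
  · have h1 := hτ 0 ⟨le_rfl, dist_nonneg⟩
    exact (dist_eq_zero.1 h1).symm
  · have h1 := hτ (dist x y) ⟨dist_nonneg, le_rfl⟩
    have h2 := hdist (τ (dist x y)) 1
    rw [c.target, h1, sub_self, abs_zero] at h2
    exact dist_eq_zero.1 h2
  · apply Subset.antisymm
    · rintro _ ⟨r, _, rfl⟩
      exact mem_range_self _
    · rintro _ ⟨t, rfl⟩
      have hmem : dist x (c t) ∈ Icc 0 (dist x y) := by
        refine ⟨dist_nonneg, ?_⟩
        have h1 := hc.key (le_refl t)
        rw [dist_self] at h1
        linarith [dist_nonneg (x := c t) (y := y)]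
      refine ⟨dist x (c t), hmem, ?_⟩
      have h2 := hdist (τ (dist x (c t))) t
      rw [hτ _ hmem, sub_self, abs_zero] at h2
      exact dist_eq_zero.1 h2

/-- An arc length parametrised minimal geodesic is a minimal path. -/
theorem GeodOn.exists_path {x y : X} {γ : ℝ → X} (h : GeodOn γ 0 (dist x y)) (h0 : γ 0 = x)
    (h1 : γ (dist x y) = y) :
    ∃ c : Path x y, IsMinimal c ∧ range c = γ '' Icc 0 (dist x y) := by
  set L := dist x y with hL
  have hL0 : 0 ≤ L := dist_nonneg
  have hmaps : ∀ t : unitInterval, (t : ℝ) * L ∈ Icc 0 L := fun t =>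
    ⟨mul_nonneg t.2.1 hL0, by nlinarith [t.2.2]⟩
  have hcont : Continuous fun t : unitInterval => γ ((t : ℝ) * L) := by
    have h2 : Continuous fun t : unitInterval => (t : ℝ) * L := by fun_prop
    exact h.continuousOn.comp_continuous h2 hmaps
  let c : Path x y :=
    { toFun := fun t => γ ((t : ℝ) * L)
      continuous_toFun := hcont
      source' := by simp [h0]
      target' := by simp [h1] }
  have hrange : range c = γ '' Icc 0 L := by
    apply Subset.antisymm
    · rintro _ ⟨t, rfl⟩
      exact ⟨(t : ℝ) * L, hmaps t, rfl⟩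
    · rintro _ ⟨r, hr, rfl⟩
      rcases hL0.eq_or_lt with hL' | hL'
      · have : r = 0 := le_antisymm (by rw [hL']; exact hr.2) hr.1
        subst this
        exact ⟨0, by change γ (((0 : unitInterval) : ℝ) * L) = γ 0; simp⟩
      · refine ⟨⟨r / L, div_nonneg hr.1 hL0, (div_le_one hL').2 hr.2⟩, ?_⟩
        change γ (r / L * L) = γ r
        rw [div_mul_cancel₀ _ hL'.ne']
  refine ⟨c, ?_, hrange⟩
  apply le_antisymm
  · have hlip : LipschitzOnWith 1 γ (Icc 0 L) := by
      apply LipschitzOnWith.of_dist_le_mul
      intro s hs t ht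
      rw [h s hs t ht, Real.dist_eq]
      simp
    have h2 := hlip.comp_eVariationOn_le (g := fun t : unitInterval => (t : ℝ) * L) (s := univ)
      (fun t _ => hmaps t)
    have hmono : MonotoneOn (fun t : unitInterval => (t : ℝ) * L) univ := by
      intro s _ t _ hst
      have : (s : ℝ) ≤ t := hst
      simp only
      gcongr
    have h3 := (hmono.eVariationOn_eq (a := 0) (b := 1) (mem_univ _) (mem_univ _)).le
    have h4 : (univ : Set unitInterval) ∩ Icc 0 1 = univ := by
      ext t
      simp only [mem_inter_iff, mem_univ, true_and, mem_Icc, iff_true]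
      exact ⟨t.2.1, t.2.2⟩
    rw [h4] at h3
    simp only [Set.Icc.coe_one, one_mul, Set.Icc.coe_zero, zero_mul, sub_zero] at h3
    calc eVariationOn c univ = eVariationOn (γ ∘ fun t : unitInterval => (t : ℝ) * L) univ := rfl
      _ ≤ (1 : NNReal) * eVariationOn (fun t : unitInterval => (t : ℝ) * L) univ := h2
      _ ≤ 1 * ENNReal.ofReal L := by
        rw [ENNReal.coe_one]
        gcongr
      _ = edist x y := by rw [one_mul, edist_dist]
  · have := eVariationOn.edist_le c (s := univ) (x := 0) (y := 1) (mem_univ _) (mem_univ _)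
    rwa [c.source, c.target] at this

end KEReg
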