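import Pool.Agent.KEReg.Energy

/-!
# Non-branching in coordinates

Two unit speed minimising curves `u`, `w` in a chart which agree for negative times agree for a
short positive time.  The proof compares the energies of `u` and `w` with the energies of the two
curves `(u + w) / 2 ± α / 2`, where `α` is linear in time; no differential equation is used.
-/

open Set Metric Filter Topology MeasureTheory
open scoped NNReal

namespace KEReg

variable {X : Type*} [MetricSpace X]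

section Energy

variable {E : Type*} [NormedAddCommGroup E] [NormedSpace ℝ E] [FiniteDimensional ℝ E]

/-- A curve joining two points at distance equal to its time has energy at least its time. -/
theorem energy_ge {g : E → E →L[ℝ] E →L[ℝ] ℝ} {B : Set E} (hg : ContinuousOn g B)
    {G : ℝ} (hG : ∀ z ∈ B, ‖g z‖ ≤ G) (hpos : ∀ z ∈ B, ∀ v, 0 ≤ g z v v)
    {v : ℝ → E} {K : ℝ≥0} (hv : LipschitzWith K v) {a b : ℝ}
    (hab : a < b) (hB : ∀ s ∈ Icc a b, v s ∈ B) {c : ℝ → X} {C2 : ℝ≥0}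
    (hc : ∀ s ∈ Icc a b, ∀ s' ∈ Icc a b, dist (c s) (c s') ≤ C2 * |s - s'|)
    (hinf : ∀ s ∈ Ioo a b, ∀ ε > 0, ∀ᶠ s' in 𝓝 s,
      dist (c s') (c s) ≤ (1 + ε) * nrm (g (v s)) (v s' - v s))
    (hd : dist (c a) (c b) = b - a) :
    b - a ≤ ∫ s in a..b, g (v s) (deriv v s) (deriv v s) := by
  let f : ℝ → ℝ := fun s => dist (c a) (c s)
  have hfL : LipschitzOnWith C2 f (uIcc a b) := by
    rw [uIcc_of_le hab.le]
    apply LipschitzOnWith.of_dist_le_mul
    intro s hs s' hs'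
    rw [Real.dist_eq, Real.dist_eq]
    refine le_trans ?_ (hc s hs s' hs')
    have := abs_dist_sub_le (c s) (c s') (c a)
    simpa [f, dist_comm (c a)] using this
  have hfac := hfL.absolutelyContinuousOnInterval
  have hint := hfac.integral_deriv_eq_sub
  have hfa : f a = 0 := dist_self _
  have hfb : f b = b - a := hd
  rw [hfa, hfb, sub_zero] at hint
  have hq := integrable_quad hg hG hv hab.le hB
  have hmono : ∫ s in a..b, deriv f s ≤
      ∫ s in a..b, (1 + g (v s) (deriv v s) (deriv v s)) / 2 := by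
    apply intervalIntegral.integral_mono_ae_restrict hab.le hfac.intervalIntegrable_deriv
    · exact (intervalIntegrable_const.add hq).div_const 2
    · have h1 := hfac.ae_differentiableAt
      have h2 := hv.ae_differentiableAt (μ := volume)
      have h3 : ∀ᵐ s ∂(volume.restrict (Icc a b)), s ∈ Ioo a b := by
        rw [restrict_Ioo_eq_restrict_Icc.symm]
        exact ae_restrict_mem measurableSet_Ioo
      filter_upwards [h3, ae_restrict_of_ae h1, ae_restrict_of_ae h2] with s hs hs1 hs2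
      have hs1' := hs1 (by rw [uIcc_of_le hab.le]; exact Ioo_subset_Icc_self hs)
      have hle := abs_deriv_le_nrm (P := g (v s)) hs1'.hasDerivAt hs2.hasDerivAt (by
        intro ε hε
        apply Filter.Eventually.filter_mono nhdsWithin_le_nhds
        filter_upwards [hinf s hs ε hε] with s' hs'
        refine le_trans ?_ hs'
        have := abs_dist_sub_le (c s') (c s) (c a)
        simpa [f, dist_comm (c a)] using this)
      have hq0 : 0 ≤ g (v s) (deriv v s) (deriv v s) :=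
        hpos _ (hB s (Ioo_subset_Icc_self hs)) _
      have h4 : deriv f s ≤ nrm (g (v s)) (deriv v s) := (le_abs_self _).trans hle
      have h5 : nrm (g (v s)) (deriv v s) ≤ (1 + g (v s) (deriv v s) (deriv v s)) / 2 := by
        unfold nrm
        have h6 := Real.sq_sqrt hq0
        nlinarith [sq_nonneg (√(g (v s) (deriv v s) (deriv v s)) - 1)]
      exact h4.trans h5
  rw [hint, intervalIntegral.integral_div, intervalIntegral.integral_add
    intervalIntegrable_const hq] at hmono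
  simp only [intervalIntegral.integral_const, smul_eq_mul, mul_one] at hmono
  linarith

end Energy

section CS

variable {E : Type*} [NormedAddCommGroup E] [NormedSpace ℝ E] [FiniteDimensional ℝ E]

/-- `‖D t‖ ^ 2 ≤ t ∫ ‖D'‖ ^ 2` for a Lipschitz curve with `D 0 = 0`. -/
theorem sq_le_integral {D : ℝ → E} {K : ℝ≥0} (hD : LipschitzWith K D) (h0 : D 0 = 0) {t : ℝ}
    (ht : 0 < t) : ‖D t‖ ^ 2 ≤ t * ∫ s in (0 : ℝ)..t, ‖deriv D s‖ ^ 2 := by
  have hI0 : 0 ≤ ∫ s in (0 : ℝ)..t, ‖deriv D s‖ ^ 2 :=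
    intervalIntegral.integral_nonneg ht.le fun s _ => by positivity
  by_cases hDt : D t = 0
  · rw [hDt, norm_zero]
    simp only [ne_eq, OfNat.ofNat_ne_zero, not_false_eq_true, zero_pow]
    positivity
  obtain ⟨f, hf1, hf2⟩ := exists_dual_vector ℝ (D t) (norm_ne_zero_iff.2 hDt)
  set μ := ‖D t‖ with hμ
  have hfn : ∀ x, f x ≤ ‖x‖ := by
    intro x
    have h1 := f.le_opNorm x
    rw [hf1, one_mul] at h1
    exact (le_abs_self _).trans h1
  let φ : ℝ → ℝ := fun s => f (D s)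
  have hφL : LipschitzWith K φ := by
    apply LipschitzWith.of_dist_le_mul
    intro s s'
    rw [Real.dist_eq]
    simp only [φ]
    rw [← map_sub]
    calc |f (D s - D s')| ≤ ‖D s - D s'‖ := by
          have h1 := f.le_opNorm (D s - D s')
          rwa [hf1, one_mul] at h1
      _ ≤ K * dist s s' := by
        rw [← dist_eq_norm]
        exact hD.dist_le_mul s s'
  have hφac := (hφL.lipschitzOnWith (s := uIcc 0 t)).absolutelyContinuousOnInterval
  have hint := hφac.integral_deriv_eq_sub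
  have e1 : φ t = μ := by
    have : f (D t) = ((‖D t‖ : ℝ) : ℝ) := hf2
    simpa [φ] using this
  have e2 : φ 0 = 0 := by simp only [φ, h0, map_zero]
  rw [e1, e2, sub_zero] at hint
  have hsq := integrable_deriv_sq hD ht.le
  have hpos : 0 < μ := norm_pos_iff.2 hDt
  -- pointwise bound
  have hmono : ∫ s in (0 : ℝ)..t, deriv φ s ≤
      ∫ s in (0 : ℝ)..t, (μ / (2 * t) + t / (2 * μ) * ‖deriv D s‖ ^ 2) := by
    apply intervalIntegral.integral_mono_ae_restrict ht.le hφac.intervalIntegrable_deriv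
    · exact intervalIntegrable_const.add (hsq.const_mul _)
    · have h2 := hD.ae_differentiableAt (μ := volume)
      filter_upwards [ae_restrict_of_ae h2] with s hs
      have hder : HasDerivAt φ (f (deriv D s)) s :=
        f.hasFDerivAt.comp_hasDerivAt s hs.hasDerivAt
      rw [hder.deriv]
      have h3 : f (deriv D s) ≤ ‖deriv D s‖ := hfn _
      have h4 : ‖deriv D s‖ ≤ μ / (2 * t) + t / (2 * μ) * ‖deriv D s‖ ^ 2 := by
        have h5 : 0 ≤ (μ - t * ‖deriv D s‖) ^ 2 / (2 * t * μ) := by positivity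
        have h6 : (μ - t * ‖deriv D s‖) ^ 2 / (2 * t * μ) =
            μ / (2 * t) + t / (2 * μ) * ‖deriv D s‖ ^ 2 - ‖deriv D s‖ := by
          field_simp
          ring
        linarith
      exact h3.trans h4
  rw [hint, intervalIntegral.integral_add intervalIntegrable_const (hsq.const_mul _),
    intervalIntegral.integral_const_mul] at hmono
  simp only [intervalIntegral.integral_const, smul_eq_mul, sub_zero] at hmono
  have h7 : t * (μ / (2 * t)) = μ / 2 := by field_simp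
  rw [h7] at hmono
  have h8 : μ / 2 ≤ t / (2 * μ) * ∫ s in (0 : ℝ)..t, ‖deriv D s‖ ^ 2 := by linarith
  have h9 : t / (2 * μ) * (∫ s in (0 : ℝ)..t, ‖deriv D s‖ ^ 2) =
      (t * ∫ s in (0 : ℝ)..t, ‖deriv D s‖ ^ 2) / (2 * μ) := by ring
  rw [h9, le_div_iff₀ (by positivity)] at h8
  nlinarith

end CS

section Main

variable {E : Type*} [NormedAddCommGroup E] [NormedSpace ℝ E] [FiniteDimensional ℝ E]

/-- Local data of a `C²` metric tensor on a ball. -/
structure TensorData (g : E → E →L[ℝ] E →L[ℝ] ℝ) (B : Set E) (l C G : ℝ) : Prop where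
  cont : ContinuousOn g B
  symm : ∀ z ∈ B, ∀ v w, g z v w = g z w v
  lower : ∀ z ∈ B, ∀ v, l * ‖v‖ ^ 2 ≤ g z v v
  upper : ∀ z ∈ B, ‖g z‖ ≤ G
  lip : ∀ z ∈ B, ∀ z' ∈ B, ‖g z - g z'‖ ≤ C * ‖z - z'‖
  second : ∀ m b, m ∈ B → m + b ∈ B → m - b ∈ B → ‖g (m + b) + g (m - b) - (2 : ℝ) • g m‖ ≤
    C * ‖b‖ ^ 2
  l_pos : 0 < l
  C_nonneg : 0 ≤ C

/-- the integral inequality obtained from the four curves -/
theorem four_curves {g : E → E →L[ℝ] E →L[ℝ] ℝ} {z₀ : E} {ρ l C G : ℝ}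
    (hT : TensorData g (ball z₀ ρ) l C G) {φ : E → X} {c2 : ℝ≥0}
    (hφ : ∀ z ∈ ball z₀ ρ, ∀ z' ∈ ball z₀ ρ, dist (φ z) (φ z') ≤ c2 * ‖z - z'‖)
    (hinf : ∀ z ∈ ball z₀ ρ, ∀ ε > 0, ∀ᶠ z' in 𝓝 z,
      (1 - ε) * nrm (g z) (z' - z) ≤ dist (φ z') (φ z) ∧
      dist (φ z') (φ z) ≤ (1 + ε) * nrm (g z) (z' - z))
    {u w : ℝ → E} {K : ℝ≥0} (hu : LipschitzWith K u) (hw : LipschitzWith K w)
    (hub : ∀ s, u s ∈ ball z₀ (ρ / 4)) (hwb : ∀ s, w s ∈ ball z₀ (ρ / 4))
    {δ : ℝ} (hδ : 0 < δ)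
    (hgu : ∀ s ∈ Icc (-δ) δ, ∀ s' ∈ Icc (-δ) δ, dist (φ (u s)) (φ (u s')) = |s - s'|)
    (hgw : ∀ s ∈ Icc (-δ) δ, ∀ s' ∈ Icc (-δ) δ, dist (φ (w s)) (φ (w s')) = |s - s'|)
    (heq : ∀ s ≤ 0, u s = w s) {t : ℝ} (ht : 0 < t) (htδ : t ≤ δ) :
    l / 4 * ∫ s in (-δ)..t, ‖deriv (fun r => w r - u r) s‖ ^ 2 ≤
      (C * K ^ 2 + 4 * C ^ 2 * K ^ 2 / l) / 4 * (∫ s in (-δ)..t, ‖w s - u s‖ ^ 2) +
      ((2 * G + 2 * C * K) / (4 * δ ^ 2) + (C * K ^ 2 + 2 * C * K) / 4) * ‖w t - u t‖ ^ 2 *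
        (t + δ) := by
  set A : E := w t - u t with hA
  have hT0 : 0 < t + δ := by linarith
  have hK0 : (0 : ℝ) ≤ K := K.2
  have hρ : 0 < ρ := by
    have := hub 0
    rw [mem_ball] at this
    linarith [dist_nonneg (x := u 0) (y := z₀)]
  have hball : ball z₀ (ρ / 4) ⊆ ball z₀ ρ := ball_subset_ball (by linarith)
  have hAn : ‖A‖ < ρ / 2 := by
    have h1 := hub t
    have h2 := hwb t
    rw [mem_ball, dist_eq_norm] at h1 h2
    calc ‖A‖ = ‖(w t - z₀) - (u t - z₀)‖ := by rw [hA]; congr 1; abel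
      _ ≤ ‖w t - z₀‖ + ‖u t - z₀‖ := norm_sub_le _ _
      _ < ρ / 2 := by linarith
  have hm : ∀ s, ‖(1 / 2 : ℝ) • (u s + w s) - z₀‖ < ρ / 4 := by
    intro s
    have h1 := hub s
    have h2 := hwb s
    rw [mem_ball, dist_eq_norm] at h1 h2
    have h3 : (1 / 2 : ℝ) • (u s + w s) - z₀ = (1 / 2 : ℝ) • (u s - z₀) + (1 / 2 : ℝ) • (w s - z₀) :=
      by module
    rw [h3]
    calc _ ≤ ‖(1 / 2 : ℝ) • (u s - z₀)‖ + ‖(1 / 2 : ℝ) • (w s - z₀)‖ := norm_add_le _ _
      _ = (1 / 2) * ‖u s - z₀‖ + (1 / 2) * ‖w s - z₀‖ := by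
        rw [norm_smul, norm_smul]; norm_num
      _ < ρ / 4 := by linarith
  -- the two comparison curves, `κ = 1` and `κ = -1`
  let v : ℝ → ℝ → E := fun κ s => (1 / 2 : ℝ) • (u s + w s) + (κ * ((s + δ) / (t + δ) / 2)) • A
  have hcoef : ∀ s ∈ Icc (-δ) t, 0 ≤ (s + δ) / (t + δ) / 2 ∧ (s + δ) / (t + δ) / 2 ≤ 1 / 2 := by
    intro s hs
    have h1 : 0 ≤ (s + δ) / (t + δ) := div_nonneg (by linarith [hs.1]) hT0.le
    have h2 : (s + δ) / (t + δ) ≤ 1 := (div_le_one hT0).2 (by linarith [hs.2])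
    constructor <;> linarith
  have hβ : ∀ s ∈ Icc (-δ) t, ‖((s + δ) / (t + δ) / 2) • A‖ ≤ ‖A‖ / 2 := by
    intro s hs
    obtain ⟨h1, h2⟩ := hcoef s hs
    rw [norm_smul, Real.norm_of_nonneg h1]
    nlinarith [norm_nonneg A]
  have hvB : ∀ κ : ℝ, |κ| = 1 → ∀ s ∈ Icc (-δ) t, v κ s ∈ ball z₀ ρ := by
    intro κ hκ s hs
    rw [mem_ball, dist_eq_norm]
    have h1 := hβ s hs
    have h2 : ‖(κ * ((s + δ) / (t + δ) / 2)) • A‖ ≤ ‖A‖ / 2 := by
      rw [mul_smul, norm_smul, Real.norm_eq_abs, hκ, one_mul]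
      exact h1
    calc ‖v κ s - z₀‖ = ‖((1 / 2 : ℝ) • (u s + w s) - z₀) + (κ * ((s + δ) / (t + δ) / 2)) • A‖ := by
          simp only [v]; congr 1; abel
      _ ≤ ‖(1 / 2 : ℝ) • (u s + w s) - z₀‖ + ‖(κ * ((s + δ) / (t + δ) / 2)) • A‖ :=
        norm_add_le _ _
      _ < ρ := by linarith [hm s]
  let K' : ℝ≥0 := K + ⟨‖A‖ / (2 * (t + δ)), by positivity⟩
  have hvL : ∀ κ : ℝ, |κ| = 1 → LipschitzWith K' (v κ) := by
    intro κ hκ
    apply LipschitzWith.of_dist_le_mul
    intro s s'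
    have h1 := hu.dist_le_mul s s'
    have h2 := hw.dist_le_mul s s'
    rw [dist_eq_norm] at h1 h2
    have h3 : v κ s - v κ s' = (1 / 2 : ℝ) • (u s - u s') + (1 / 2 : ℝ) • (w s - w s') +
        (κ * ((s - s') / (2 * (t + δ)))) • A := by
      simp only [v]
      have : κ * ((s - s') / (2 * (t + δ))) =
          κ * ((s + δ) / (t + δ) / 2) - κ * ((s' + δ) / (t + δ) / 2) := by
        field_simp
        ring
      rw [this]
      module
    rw [dist_eq_norm, h3]
    have h4 : ‖(κ * ((s - s') / (2 * (t + δ)))) • A‖ = ‖A‖ / (2 * (t + δ)) * dist s s' := by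
      rw [norm_smul, Real.norm_eq_abs, abs_mul, hκ, one_mul, abs_div,
        abs_of_pos (show 0 < 2 * (t + δ) by positivity), Real.dist_eq]
      ring
    calc _ ≤ ‖(1 / 2 : ℝ) • (u s - u s')‖ + ‖(1 / 2 : ℝ) • (w s - w s')‖ +
          ‖(κ * ((s - s') / (2 * (t + δ)))) • A‖ := norm_add₃_le
      _ = (1 / 2) * ‖u s - u s'‖ + (1 / 2) * ‖w s - w s'‖ +
          ‖A‖ / (2 * (t + δ)) * dist s s' := by
        rw [norm_smul, norm_smul, h4]; norm_num
      _ ≤ (1 / 2) * (K * dist s s') + (1 / 2) * (K * dist s s') +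
          ‖A‖ / (2 * (t + δ)) * dist s s' := by gcongr
      _ = (K' : ℝ) * dist s s' := by
        have hK' : (K' : ℝ) = (K : ℝ) + ‖A‖ / (2 * (t + δ)) := NNReal.coe_add _ _
        rw [hK']
        ring
  have hpos : ∀ z ∈ ball z₀ ρ, ∀ x, 0 ≤ g z x x := fun z hz x =>
    le_trans (by have := hT.l_pos; positivity) (hT.lower z hz x)
  -- energies of the comparison curves
  have hEv : ∀ κ : ℝ, |κ| = 1 → dist (φ (v κ (-δ))) (φ (v κ t)) = t - (-δ) →
      t - (-δ) ≤ ∫ s in (-δ)..t, g (v κ s) (deriv (v κ) s) (deriv (v κ) s) := by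
    intro κ hκ hd
    refine energy_ge hT.cont hT.upper hpos (hvL κ hκ) (by linarith) (hvB κ hκ)
      (c := fun s => φ (v κ s)) (C2 := c2 * K') ?_ ?_ hd
    · intro s hs s' hs'
      refine (hφ _ (hvB κ hκ s hs) _ (hvB κ hκ s' hs')).trans ?_
      have := (hvL κ hκ).dist_le_mul s s'
      rw [dist_eq_norm, Real.dist_eq] at this
      push_cast
      rw [mul_assoc]
      gcongr
    · intro s hs ε hε
      have h1 := hinf _ (hvB κ hκ s (Ioo_subset_Icc_self hs)) ε hε
      have h2 : Tendsto (v κ) (𝓝 s) (𝓝 (v κ s)) := (hvL κ hκ).continuous.tendsto s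
      filter_upwards [h2.eventually h1] with s' hs'
      exact hs'.2
  have hE1 := hEv 1 (by simp) (by
    have e1 : v 1 (-δ) = w (-δ) := by
      simp only [v, neg_add_cancel, zero_div, mul_zero, zero_smul, add_zero]
      rw [heq (-δ) (by linarith)]
      module
    have e2 : v 1 t = w t := by
      simp only [v, div_self hT0.ne', hA]
      module
    rw [e1, e2, hgw _ ⟨le_rfl, by linarith⟩ _ ⟨by linarith, htδ⟩, abs_of_nonpos (by linarith)]
    ring)
  have hE2 := hEv (-1) (by simp) (by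
    have e1 : v (-1) (-δ) = u (-δ) := by
      simp only [v, neg_add_cancel, zero_div, mul_zero, zero_smul, add_zero]
      rw [heq (-δ) (by linarith)]
      module
    have e2 : v (-1) t = u t := by
      simp only [v, div_self hT0.ne', hA]
      module
    rw [e1, e2, hgu _ ⟨le_rfl, by linarith⟩ _ ⟨by linarith, htδ⟩, abs_of_nonpos (by linarith)]
    ring)
  -- energies of the minimising curves
  have hEu : ∀ x : ℝ → E, (∀ s, x s ∈ ball z₀ (ρ / 4)) → Continuous x →
      (∀ s ∈ Icc (-δ) δ, ∀ s' ∈ Icc (-δ) δ, dist (φ (x s)) (φ (x s')) = |s - s'|) →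
      ∀ s ∈ Ioo (-δ) t, DifferentiableAt ℝ x s → g (x s) (deriv x s) (deriv x s) ≤ 1 := by
    intro x hxb hxc hgx s hs hdiff
    have h1 := nrm_deriv_le_one (P := g (x s)) hdiff.hasDerivAt (by
      intro ε hε
      apply Filter.Eventually.filter_mono nhdsWithin_le_nhds
      have h2 : Tendsto x (𝓝 s) (𝓝 (x s)) := hxc.tendsto s
      have h3 : Ioo (-δ) δ ∈ 𝓝 s := Ioo_mem_nhds hs.1 (hs.2.trans_le htδ)
      filter_upwards [h2.eventually (hinf _ (hball (hxb s)) ε hε), h3] with s' hs' hs''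
      rw [← hgx s' (Ioo_subset_Icc_self hs'') s ⟨hs.1.le, hs.2.le.trans htδ⟩]
      exact hs'.1)
    unfold nrm at h1
    have h4 := hpos _ (hball (hxb s)) (deriv x s)
    have h5 := Real.sq_sqrt h4
    have h6 := Real.sqrt_nonneg (g (x s) (deriv x s) (deriv x s))
    nlinarith
  -- Lipschitz difference
  have hDL : LipschitzWith (K + K) (fun r => w r - u r) := hw.sub hu
  have hab : -δ ≤ t := by linarith
  have hi1 := integrable_quad hT.cont hT.upper (hvL 1 (by simp)) hab (hvB 1 (by simp))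
  have hi2 := integrable_quad hT.cont hT.upper (hvL (-1) (by simp)) hab (hvB (-1) (by simp))
  have hi3 := integrable_deriv_sq hDL hab
  have hi4 : IntervalIntegrable (fun s => ‖w s - u s‖ ^ 2) volume (-δ) t := by
    have : Continuous (fun s => ‖w s - u s‖ ^ 2) := (hDL.continuous.norm.pow 2)
    exact this.intervalIntegrable _ _
  set Kt : ℝ := ((2 * G + 2 * C * K) / (4 * δ ^ 2) + (C * K ^ 2 + 2 * C * K) / 4) * ‖A‖ ^ 2 with hKt
  set C5 : ℝ := (C * K ^ 2 + 4 * C ^ 2 * K ^ 2 / l) with hC5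
  have hmono : ∫ s in (-δ)..t, (g (v 1 s) (deriv (v 1) s) (deriv (v 1) s) +
      g (v (-1) s) (deriv (v (-1)) s) (deriv (v (-1)) s)) ≤
      ∫ s in (-δ)..t, ((2 + Kt) + (C5 / 4 * ‖w s - u s‖ ^ 2 -
        l / 4 * ‖deriv (fun r => w r - u r) s‖ ^ 2)) := by
    apply intervalIntegral.integral_mono_ae_restrict hab (hi1.add hi2)
    · exact intervalIntegrable_const.add ((hi4.const_mul _).sub (hi3.const_mul _))
    · have h2 := hu.ae_differentiableAt (μ := volume)
      have h2' := hw.ae_differentiableAt (μ := volume)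
      have h3 : ∀ᵐ s ∂(volume.restrict (Icc (-δ) t)), s ∈ Ioo (-δ) t := by
        rw [restrict_Ioo_eq_restrict_Icc.symm]
        exact ae_restrict_mem measurableSet_Ioo
      filter_upwards [h3, ae_restrict_of_ae h2, ae_restrict_of_ae h2'] with s hs hdu hdw
      have hsI := Ioo_subset_Icc_self hs
      have qu := hEu u hub hu.continuous hgu s hs hdu
      have qw := hEu w hwb hw.continuous hgw s hs hdw
      set u' := deriv u s
      set w' := deriv w s
      have hdD : deriv (fun r => w r - u r) s = w' - u' := (hdw.hasDerivAt.sub hdu.hasDerivAt).deriv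
      have hdv : ∀ κ : ℝ, deriv (v κ) s = (1 / 2 : ℝ) • (u' + w') +
          (κ * (1 / (t + δ) / 2)) • A := by
        intro κ
        have h4 : HasDerivAt (fun r : ℝ => κ * ((r + δ) / (t + δ) / 2)) (κ * (1 / (t + δ) / 2)) s :=
          ((((hasDerivAt_id s).add_const δ).div_const (t + δ)).div_const 2).const_mul κ
        have h5 := ((hdu.hasDerivAt.add hdw.hasDerivAt).const_smul (1 / 2 : ℝ)).add
          (h4.smul_const A)
        exact h5.deriv
      have hu'n : ‖u'‖ ≤ K := norm_deriv_le_of_lipschitz hu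
      have hw'n : ‖w'‖ ≤ K := norm_deriv_le_of_lipschitz hw
      set a : E := (1 / 2 : ℝ) • (u' + w') with ha
      have han : ‖a‖ ≤ K := by
        rw [ha, norm_smul]
        have := norm_add_le u' w'
        norm_num
        linarith
      set m : E := (1 / 2 : ℝ) • (u s + w s) with hmdef
      have hmB : m ∈ ball z₀ ρ := by
        rw [mem_ball, dist_eq_norm]
        linarith [hm s]
      -- lower bound
      set β : E := (1 / 2 : ℝ) • (w s - u s) with hβdef
      have e1 : m + β = w s := by rw [hmdef, hβdef]; module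
      have e2 : m - β = u s := by rw [hmdef, hβdef]; module
      have hus := hball (hub s)
      have hws := hball (hwb s)
      have l1 : ‖g (w s) - g (u s)‖ ≤ C * (2 * ‖β‖) := by
        refine (hT.lip _ hws _ hus).trans (le_of_eq ?_)
        rw [hβdef, norm_smul]
        norm_num
        left
        ring
      have l2 : ‖g (w s) + g (u s) - (2 : ℝ) • g m‖ ≤ C * ‖β‖ ^ 2 := by
        have := hT.second m β hmB (by rw [e1]; exact hws) (by rw [e2]; exact hus)
        rwa [e1, e2] at this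
      have low := quad_lower (hT.symm _ hws) (hT.symm _ hus) hT.l_pos hT.C_nonneg
        (norm_nonneg β) (hT.lower _ hws) (hT.lower _ hus) l1 l2 a ((1 / 2 : ℝ) • (w' - u')) han
      have e3 : a + (1 / 2 : ℝ) • (w' - u') = w' := by rw [ha]; module
      have e4 : a - (1 / 2 : ℝ) • (w' - u') = u' := by rw [ha]; module
      rw [e3, e4] at low
      -- upper bound
      set α : E := ((s + δ) / (t + δ) / 2) • A with hαdef
      have e5 : v 1 s = m + α := by simp only [v, one_mul, hαdef, hmdef]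
      have e6 : v (-1) s = m - α := by
        simp only [v, hαdef, hmdef]; module
      have hv1 := hvB 1 (by simp) s hsI
      have hv2 := hvB (-1) (by simp) s hsI
      have u1 : ‖g (v 1 s) - g (v (-1) s)‖ ≤ C * (2 * ‖α‖) := by
        refine (hT.lip _ hv1 _ hv2).trans (le_of_eq ?_)
        rw [e5, e6]
        have : m + α - (m - α) = (2 : ℝ) • α := by module
        rw [this, norm_smul]
        norm_num
      have u2 : ‖g (v 1 s) + g (v (-1) s) - (2 : ℝ) • g m‖ ≤ C * ‖α‖ ^ 2 := by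
        have := hT.second m α hmB (by rw [← e5]; exact hv1) (by rw [← e6]; exact hv2)
        rwa [← e5, ← e6] at this
      have up := quad_upper (hT.symm _ hv1) (hT.symm _ hv2) hT.C_nonneg
        (norm_nonneg α) (hT.upper _ hv1) (hT.upper _ hv2) u1 u2 a ((1 / (t + δ) / 2 : ℝ) • A) han
      have e7 : deriv (v 1) s = a + (1 / (t + δ) / 2 : ℝ) • A := by
        rw [hdv]; simp only [one_mul]
      have e8 : deriv (v (-1)) s = a - (1 / (t + δ) / 2 : ℝ) • A := by
        rw [hdv]; module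
      rw [← e7, ← e8] at up
      have hG0 : 0 ≤ G := (norm_nonneg (g (v 1 s))).trans (hT.upper _ hv1)
      have hC0 := hT.C_nonneg
      have hαn : ‖α‖ ^ 2 ≤ ‖A‖ ^ 2 / 4 := by
        have h1 : ‖α‖ ≤ ‖A‖ / 2 := hβ s hsI
        calc ‖α‖ ^ 2 ≤ (‖A‖ / 2) ^ 2 := by gcongr
          _ = ‖A‖ ^ 2 / 4 := by ring
      have hαd : ‖(1 / (t + δ) / 2 : ℝ) • A‖ ^ 2 ≤ ‖A‖ ^ 2 / (4 * δ ^ 2) := by
        rw [norm_smul, Real.norm_of_nonneg (by positivity), mul_pow]
        have h1 : (1 / (t + δ) / 2) ^ 2 ≤ 1 / (4 * δ ^ 2) := by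
          rw [div_div, div_pow, one_pow]
          apply one_div_le_one_div_of_le (by positivity)
          have h2 : 2 * δ ≤ (t + δ) * 2 := by linarith
          calc 4 * δ ^ 2 = (2 * δ) ^ 2 := by ring
            _ ≤ ((t + δ) * 2) ^ 2 := by gcongr
        calc (1 / (t + δ) / 2) ^ 2 * ‖A‖ ^ 2 ≤ 1 / (4 * δ ^ 2) * ‖A‖ ^ 2 := by gcongr
          _ = _ := by ring
      have hup2 : (2 * G + 2 * C * K) * ‖(1 / (t + δ) / 2 : ℝ) • A‖ ^ 2 +
          (C * K ^ 2 + 2 * C * K) * ‖α‖ ^ 2 ≤ Kt := by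
        have i1 : (2 * G + 2 * C * K) * ‖(1 / (t + δ) / 2 : ℝ) • A‖ ^ 2 ≤
            (2 * G + 2 * C * K) * (‖A‖ ^ 2 / (4 * δ ^ 2)) := by gcongr
        have i2 : (C * K ^ 2 + 2 * C * K) * ‖α‖ ^ 2 ≤
            (C * K ^ 2 + 2 * C * K) * (‖A‖ ^ 2 / 4) := by gcongr
        have i3 : Kt = (2 * G + 2 * C * K) * (‖A‖ ^ 2 / (4 * δ ^ 2)) +
            (C * K ^ 2 + 2 * C * K) * (‖A‖ ^ 2 / 4) := by rw [hKt]; ring
        rw [i3]
        exact add_le_add i1 i2
      have hb : ‖(1 / 2 : ℝ) • (w' - u')‖ ^ 2 = ‖w' - u'‖ ^ 2 / 4 := by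
        rw [norm_smul]; norm_num; ring
      have hβn : ‖β‖ ^ 2 = ‖w s - u s‖ ^ 2 / 4 := by
        rw [hβdef, norm_smul]; norm_num; ring
      rw [hb, hβn] at low
      rw [hdD]
      linarith
  rw [intervalIntegral.integral_add hi1 hi2, intervalIntegral.integral_add
    intervalIntegrable_const ((hi4.const_mul _).sub (hi3.const_mul _)),
    intervalIntegral.integral_sub (hi4.const_mul _) (hi3.const_mul _),
    intervalIntegral.integral_const_mul, intervalIntegral.integral_const_mul] at hmono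
  simp only [intervalIntegral.integral_const, smul_eq_mul] at hmono
  linarith

/-- Non-branching in coordinates. -/
theorem coord_nonBranching {g : E → E →L[ℝ] E →L[ℝ] ℝ} {z₀ : E} {ρ l C G : ℝ}
    (hT : TensorData g (ball z₀ ρ) l C G) {φ : E → X} {c2 : ℝ≥0}
    (hφ : ∀ z ∈ ball z₀ ρ, ∀ z' ∈ ball z₀ ρ, dist (φ z) (φ z') ≤ c2 * ‖z - z'‖)
    (hinf : ∀ z ∈ ball z₀ ρ, ∀ ε > 0, ∀ᶠ z' in 𝓝 z,
      (1 - ε) * nrm (g z) (z' - z) ≤ dist (φ z') (φ z) ∧
      dist (φ z') (φ z) ≤ (1 + ε) * nrm (g z) (z' - z))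
    {u w : ℝ → E} {K : ℝ≥0} (hu : LipschitzWith K u) (hw : LipschitzWith K w)
    (hub : ∀ s, u s ∈ ball z₀ (ρ / 4)) (hwb : ∀ s, w s ∈ ball z₀ (ρ / 4))
    {δ : ℝ} (hδ : 0 < δ)
    (hgu : ∀ s ∈ Icc (-δ) δ, ∀ s' ∈ Icc (-δ) δ, dist (φ (u s)) (φ (u s')) = |s - s'|)
    (hgw : ∀ s ∈ Icc (-δ) δ, ∀ s' ∈ Icc (-δ) δ, dist (φ (w s)) (φ (w s')) = |s - s'|)
    (heq : ∀ s ≤ 0, u s = w s) : ∃ ε > 0, ε ≤ δ ∧ ∀ s ∈ Icc 0 ε, u s = w s := by
  have hK0 : (0 : ℝ) ≤ K := K.2
  have hC0 := hT.C_nonneg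
  have hl := hT.l_pos
  have hρ : 0 < ρ := by
    have := hub 0
    rw [mem_ball] at this
    linarith [dist_nonneg (x := u 0) (y := z₀)]
  have hG0 : 0 ≤ G := (norm_nonneg (g z₀)).trans (hT.upper _ (mem_ball_self hρ))
  set C5 : ℝ := (C * K ^ 2 + 4 * C ^ 2 * K ^ 2 / l) with hC5
  have hC5n : 0 ≤ C5 := by positivity
  set C8 : ℝ := ((2 * G + 2 * C * K) / (4 * δ ^ 2) + (C * K ^ 2 + 2 * C * K) / 4) with hC8
  have hC8n : 0 ≤ C8 := by positivity
  set M : ℝ := C5 / 4 * δ + C8 * (2 * δ) with hM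
  have hMn : 0 ≤ M := by positivity
  have ht1 : 0 < min δ (l / (8 * (M + 1))) := lt_min hδ (by positivity)
  set t1 := min δ (l / (8 * (M + 1))) with ht1def
  have ht1δ : t1 ≤ δ := min_le_left _ _
  have ht1M : t1 * M < l / 4 := by
    have h1 : t1 ≤ l / (8 * (M + 1)) := min_le_right _ _
    have h2 : t1 * (8 * (M + 1)) ≤ l := by
      rwa [le_div_iff₀ (by positivity)] at h1
    nlinarith
  refine ⟨t1, ht1, ht1δ, ?_⟩
  have hDL : LipschitzWith (K + K) (fun r => w r - u r) := hw.sub hu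
  have hcont : Continuous (fun r => ‖w r - u r‖) := hDL.continuous.norm
  obtain ⟨t, ht, htmax⟩ := isCompact_Icc.exists_isMaxOn (nonempty_Icc.2 ht1.le)
    hcont.continuousOn
  have hmax : ∀ s ∈ Icc 0 t1, ‖w s - u s‖ ≤ ‖w t - u t‖ := fun s hs => htmax hs
  have hD0 : w 0 - u 0 = 0 := by rw [heq 0 le_rfl, sub_self]
  suffices hzero : ‖w t - u t‖ = 0 by
    intro s hs
    have h1 := hmax s hs
    rw [hzero] at h1
    have h2 : ‖w s - u s‖ = 0 := le_antisymm h1 (norm_nonneg _)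
    rw [norm_eq_zero, sub_eq_zero] at h2
    exact h2.symm
  rcases ht.1.eq_or_lt with h0 | hpos
  · rw [← h0, hD0, norm_zero]
  have htδ : t ≤ δ := ht.2.trans ht1δ
  have hI := four_curves hT hφ hinf hu hw hub hwb hδ hgu hgw heq hpos htδ
  have hCS := sq_le_integral hDL hD0 hpos
  -- the first integral
  have hi3 : ∀ a b : ℝ, a ≤ b → IntervalIntegrable
      (fun s => ‖deriv (fun r => w r - u r) s‖ ^ 2) volume a b :=
    fun a b hab => integrable_deriv_sq hDL hab
  have hsplit := intervalIntegral.integral_add_adjacent_intervals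
    (hi3 (-δ) 0 (by linarith)) (hi3 0 t hpos.le)
  have hnn : 0 ≤ ∫ s in (-δ)..0, ‖deriv (fun r => w r - u r) s‖ ^ 2 :=
    intervalIntegral.integral_nonneg (by linarith) fun s _ => by positivity
  -- the second integral
  have hi4 : ∀ a b : ℝ, IntervalIntegrable (fun s => ‖w s - u s‖ ^ 2) volume a b := by
    intro a b
    have : Continuous (fun s => ‖w s - u s‖ ^ 2) := hcont.pow 2
    exact this.intervalIntegrable _ _
  have hsplit2 := intervalIntegral.integral_add_adjacent_intervals (hi4 (-δ) 0) (hi4 0 t)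
  have hz : ∫ s in (-δ)..0, ‖w s - u s‖ ^ 2 = 0 := by
    have : ∫ s in (-δ)..0, ‖w s - u s‖ ^ 2 = ∫ s in (-δ)..0, (0 : ℝ) := by
      apply intervalIntegral.integral_congr
      intro s hs
      rw [uIcc_of_le (by linarith)] at hs
      simp only [heq s hs.2, sub_self, norm_zero, ne_eq, OfNat.ofNat_ne_zero, not_false_eq_true,
        zero_pow]
    rw [this]
    simp
  have hle : ∫ s in (0 : ℝ)..t, ‖w s - u s‖ ^ 2 ≤ t * ‖w t - u t‖ ^ 2 := by
    have : ∫ s in (0 : ℝ)..t, ‖w s - u s‖ ^ 2 ≤ ∫ s in (0 : ℝ)..t, ‖w t - u t‖ ^ 2 := by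
      apply intervalIntegral.integral_mono_on hpos.le (hi4 0 t) intervalIntegrable_const
      intro s hs
      have := hmax s ⟨hs.1, hs.2.trans ht.2⟩
      gcongr
    simpa using this
  set μ := ‖w t - u t‖ with hμ
  set I1 := ∫ s in (-δ)..t, ‖deriv (fun r => w r - u r) s‖ ^ 2
  set I2 := ∫ s in (-δ)..t, ‖w s - u s‖ ^ 2
  have h1 : μ ^ 2 ≤ t * I1 := by
    refine hCS.trans ?_
    gcongr
    rw [← hsplit]
    linarith
  have h2 : I2 ≤ t * μ ^ 2 := by rw [← hsplit2, hz, zero_add]; exact hle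
  have h3 : l / 4 * μ ^ 2 ≤ t1 * M * μ ^ 2 := by
    calc l / 4 * μ ^ 2 ≤ l / 4 * (t * I1) := by gcongr
      _ = t * (l / 4 * I1) := by ring
      _ ≤ t * (C5 / 4 * I2 + C8 * μ ^ 2 * (t + δ)) := by gcongr
      _ ≤ t * (C5 / 4 * (δ * μ ^ 2) + C8 * μ ^ 2 * (δ + δ)) := by
        have : I2 ≤ δ * μ ^ 2 := h2.trans (by gcongr)
        gcongr
      _ = t * (M * μ ^ 2) := by rw [hM]; ring
      _ ≤ t1 * (M * μ ^ 2) := by
        have := ht.2
        gcongr
      _ = _ := by ring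
  have h4 : (l / 4 - t1 * M) * μ ^ 2 ≤ 0 := by linarith
  have h5 : 0 < l / 4 - t1 * M := by linarith
  have h6 : μ ^ 2 ≤ 0 := by
    by_contra hcon
    push Not at hcon
    nlinarith
  have h7 : μ ^ 2 = 0 := le_antisymm h6 (by positivity)
  exact pow_eq_zero_iff (two_ne_zero) |>.1 h7

end Main

end KEReg
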