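import Pool.Agent.KEReg.Geo

/-!
# Points which are not cut points
-/

open Set Metric Filter Topology

namespace KEReg

variable {X : Type*} [MetricSpace X]

/-- concatenation of a minimal geodesic from `x` to `y` with one from `y` to `y'` -/
theorem exists_extension {x y y' : X} (h : dist x y + dist y y' = dist x y') {γ τ : ℝ → X}
    (hγ : GeodOn γ 0 (dist x y)) (hγ0 : γ 0 = x) (hγ1 : γ (dist x y) = y)
    (hτ : GeodOn τ 0 (dist y y')) (hτ0 : τ 0 = y) (hτ1 : τ (dist y y') = y') :
    GeodOn (fun r => if r ≤ dist x y then γ r else τ (r - dist x y)) 0 (dist x y') := by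
  have hτ' : GeodOn (fun r => τ (r - dist x y)) (dist x y) (dist x y') := by
    intro s hs t ht
    simp only
    rw [hτ _ ⟨by linarith [hs.1], by linarith [hs.2]⟩ _ ⟨by linarith [ht.1], by linarith [ht.2]⟩]
    congr 1; ring
  have hfg : γ (dist x y) = τ (dist x y - dist x y) := by rw [sub_self, hτ0, hγ1]
  have hend : τ (dist x y' - dist x y) = y' := by rw [← h, add_sub_cancel_left, hτ1]
  exact GeodOn.concat dist_nonneg (by linarith [dist_nonneg (x := y) (y := y')]) hγ hτ' hfg
    (by rw [hγ0, hend, sub_zero])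

/-- If `y ∈ R` is not a cut point of `x` and some minimal geodesic from `x` to `y` lies in `R`, then
all of them do (indeed there is only one). -/
theorem strong_of_not_cut (hX : IsGeodesicSpace X) {R : Set X} (hnb : ∀ p ∈ R, NonBranchingAt p)
    {x y y' : X} (hne : y ≠ y') (h : dist x y + dist y y' = dist x y') (hw : Weak R x y) :
    Strong R x y := by
  rw [strong_iff]
  intro γ hγ h0 h1
  obtain ⟨σ, hσ, hσ0, hσ1, hσR⟩ := weak_iff.1 hw
  obtain ⟨τ, hτ, hτ0, hτ1⟩ := hX.exists_geodOn y y'
  have hd : 0 < dist y y' := dist_pos.2 hne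
  have hd0 : 0 ≤ dist x y := dist_nonneg
  have e1 := (exists_extension h hσ hσ0 hσ1 hτ hτ0 hτ1).reverse
  have e2 := (exists_extension h hγ h0 h1 hτ hτ0 hτ1).reverse
  have key := eqOn_of_nonBranching hnb (a := 0) (b := dist y y') (e := dist x y')
    (c := dist x y') hd le_rfl e1 e2 ?_ ?_
  · intro s hs
    have h2 := key (dist x y' - s) ⟨by linarith [hs.2], by linarith [hs.1]⟩
    simp only [sub_sub_cancel] at h2
    rw [if_pos hs.2, if_pos hs.2] at h2
    rw [← h2]
    exact hσR s hs
  · intro r hr
    have h2 : dist x y ≤ dist x y' - r := by linarith [hr.2]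
    rcases eq_or_lt_of_le h2 with h3 | h3
    · simp only [← h3, le_refl, if_true, hσ1, h1]
    · simp only [not_le.2 h3, if_false]
  · intro r hr
    have h2 : dist x y' - r ≤ dist x y := by linarith [hr.1]
    simp only [h2, if_true]
    exact hσR _ ⟨by linarith [hr.2], h2⟩

end KEReg
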