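import Mathlib

/-!
# Energy estimates for a Riemannian metric tensor in a chart
-/

open Set Metric Filter Topology MeasureTheory
open scoped NNReal

namespace KEReg

section Algebra

variable {E : Type*} [NormedAddCommGroup E] [NormedSpace ℝ E]

theorem quad_identity {P Q M : E →L[ℝ] E →L[ℝ] ℝ} (hP : ∀ v w, P v w = P w v)
    (hQ : ∀ v w, Q v w = Q w v) (a b : E) :
    P (a + b) (a + b) + Q (a - b) (a - b) - 2 * M a a =
      (P + Q - (2 : ℝ) • M) a a + (P b b + Q b b) + 2 * ((P - Q) a b) := by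
  simp only [map_add, map_sub, add_apply, sub_apply, smul_apply, smul_eq_mul]
  rw [hP b a, hQ b a]
  ring

theorem quad_lower {P Q M : E →L[ℝ] E →L[ℝ] ℝ} (hP : ∀ v w, P v w = P w v)
    (hQ : ∀ v w, Q v w = Q w v) {l C r Λ : ℝ} (hl : 0 < l) (hC : 0 ≤ C) (hr : 0 ≤ r)
    (hPl : ∀ v, l * ‖v‖ ^ 2 ≤ P v v) (hQl : ∀ v, l * ‖v‖ ^ 2 ≤ Q v v)
    (h1 : ‖P - Q‖ ≤ C * (2 * r)) (h2 : ‖P + Q - (2 : ℝ) • M‖ ≤ C * r ^ 2) (a b : E)
    (ha : ‖a‖ ≤ Λ) :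
    l * ‖b‖ ^ 2 - (C * Λ ^ 2 + 4 * C ^ 2 * Λ ^ 2 / l) * r ^ 2 ≤
      P (a + b) (a + b) + Q (a - b) (a - b) - 2 * M a a := by
  have hΛ : 0 ≤ Λ := (norm_nonneg a).trans ha
  rw [quad_identity hP hQ]
  have e1 : -(C * r ^ 2 * Λ ^ 2) ≤ (P + Q - (2 : ℝ) • M) a a := by
    have h3 : |(P + Q - (2 : ℝ) • M) a a| ≤ ‖P + Q - (2 : ℝ) • M‖ * ‖a‖ * ‖a‖ := by
      simpa using (P + Q - (2 : ℝ) • M).le_opNorm₂ a a
    have h4 : ‖P + Q - (2 : ℝ) • M‖ * ‖a‖ * ‖a‖ ≤ C * r ^ 2 * Λ * Λ := by gcongr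
    have h5 := neg_abs_le ((P + Q - (2 : ℝ) • M) a a)
    nlinarith
  have e2 : -(C * (2 * r) * Λ * ‖b‖) ≤ (P - Q) a b := by
    have h3 : |(P - Q) a b| ≤ ‖P - Q‖ * ‖a‖ * ‖b‖ := by
      simpa using (P - Q).le_opNorm₂ a b
    have h4 : ‖P - Q‖ * ‖a‖ * ‖b‖ ≤ C * (2 * r) * Λ * ‖b‖ := by gcongr
    have h5 := neg_abs_le ((P - Q) a b)
    linarith
  have e3 : 4 * C * Λ * r * ‖b‖ ≤ l * ‖b‖ ^ 2 + 4 * C ^ 2 * Λ ^ 2 / l * r ^ 2 := by
    have h6 : 0 ≤ (l * ‖b‖ - 2 * C * Λ * r) ^ 2 / l := by positivity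
    have h7 : (l * ‖b‖ - 2 * C * Λ * r) ^ 2 / l =
        l * ‖b‖ ^ 2 + 4 * C ^ 2 * Λ ^ 2 / l * r ^ 2 - 4 * C * Λ * r * ‖b‖ := by
      field_simp
      ring
    linarith
  have h8 := hPl b
  have h9 := hQl b
  nlinarith

theorem quad_upper {P Q M : E →L[ℝ] E →L[ℝ] ℝ} (hP : ∀ v w, P v w = P w v)
    (hQ : ∀ v w, Q v w = Q w v) {C G r Λ : ℝ} (hC : 0 ≤ C) (hr : 0 ≤ r)
    (hPG : ‖P‖ ≤ G) (hQG : ‖Q‖ ≤ G)
    (h1 : ‖P - Q‖ ≤ C * (2 * r)) (h2 : ‖P + Q - (2 : ℝ) • M‖ ≤ C * r ^ 2) (a b : E)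
    (ha : ‖a‖ ≤ Λ) :
    P (a + b) (a + b) + Q (a - b) (a - b) - 2 * M a a ≤
      (2 * G + 2 * C * Λ) * ‖b‖ ^ 2 + (C * Λ ^ 2 + 2 * C * Λ) * r ^ 2 := by
  have hΛ : 0 ≤ Λ := (norm_nonneg a).trans ha
  rw [quad_identity hP hQ]
  have e1 : (P + Q - (2 : ℝ) • M) a a ≤ C * r ^ 2 * Λ ^ 2 := by
    have h3 : |(P + Q - (2 : ℝ) • M) a a| ≤ ‖P + Q - (2 : ℝ) • M‖ * ‖a‖ * ‖a‖ := by
      simpa using (P + Q - (2 : ℝ) • M).le_opNorm₂ a a
    have h4 : ‖P + Q - (2 : ℝ) • M‖ * ‖a‖ * ‖a‖ ≤ C * r ^ 2 * Λ * Λ := by gcongr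
    have h5 := le_abs_self ((P + Q - (2 : ℝ) • M) a a)
    nlinarith
  have e2 : (P - Q) a b ≤ C * (2 * r) * Λ * ‖b‖ := by
    have h3 : |(P - Q) a b| ≤ ‖P - Q‖ * ‖a‖ * ‖b‖ := by
      simpa using (P - Q).le_opNorm₂ a b
    have h4 : ‖P - Q‖ * ‖a‖ * ‖b‖ ≤ C * (2 * r) * Λ * ‖b‖ := by gcongr
    have h5 := le_abs_self ((P - Q) a b)
    linarith
  have e3 : P b b ≤ G * ‖b‖ ^ 2 := by
    have h3 : |P b b| ≤ ‖P‖ * ‖b‖ * ‖b‖ := by simpa using P.le_opNorm₂ b b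
    have h4 : ‖P‖ * ‖b‖ * ‖b‖ ≤ G * ‖b‖ * ‖b‖ := by gcongr
    have h5 := le_abs_self (P b b)
    nlinarith
  have e4 : Q b b ≤ G * ‖b‖ ^ 2 := by
    have h3 : |Q b b| ≤ ‖Q‖ * ‖b‖ * ‖b‖ := by simpa using Q.le_opNorm₂ b b
    have h4 : ‖Q‖ * ‖b‖ * ‖b‖ ≤ G * ‖b‖ * ‖b‖ := by gcongr
    have h5 := le_abs_self (Q b b)
    nlinarith
  have e5 : 2 * (r * ‖b‖) ≤ r ^ 2 + ‖b‖ ^ 2 := by nlinarith [sq_nonneg (r - ‖b‖)]
  have e6 : 2 * C * Λ * (2 * (r * ‖b‖)) ≤ 2 * C * Λ * (r ^ 2 + ‖b‖ ^ 2) := by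
    have : 0 ≤ 2 * C * Λ := by positivity
    gcongr
  nlinarith

end Algebra

section Norm

variable {E : Type*} [NormedAddCommGroup E] [NormedSpace ℝ E]

/-- the norm of the metric tensor value `P` -/
noncomputable def nrm (P : E →L[ℝ] E →L[ℝ] ℝ) (v : E) : ℝ := √(P v v)

theorem continuous_nrm (P : E →L[ℝ] E →L[ℝ] ℝ) : Continuous (nrm P) := by
  unfold nrm
  fun_prop

theorem nrm_smul (P : E →L[ℝ] E →L[ℝ] ℝ) (h : ℝ) (v : E) : nrm P (h • v) = |h| * nrm P v := by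
  unfold nrm
  simp only [map_smul, smul_apply, smul_eq_mul]
  rw [← mul_assoc, Real.sqrt_mul (mul_self_nonneg h), Real.sqrt_mul_self_eq_abs]

theorem nrm_neg (P : E →L[ℝ] E →L[ℝ] ℝ) (v : E) : nrm P (-v) = nrm P v := by
  unfold nrm
  simp

theorem abs_deriv_le_nrm {P : E →L[ℝ] E →L[ℝ] ℝ} {f : ℝ → ℝ} {v : ℝ → E} {s f' : ℝ} {v' : E}
    (hf : HasDerivAt f f' s) (hv : HasDerivAt v v' s)
    (h : ∀ ε > 0, ∀ᶠ s' in 𝓝[≠] s, |f s' - f s| ≤ (1 + ε) * nrm P (v s' - v s)) :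
    |f'| ≤ nrm P v' := by
  have hf2 := hasDerivAt_iff_tendsto_slope.1 hf
  have hv2 := hasDerivAt_iff_tendsto_slope.1 hv
  have key : ∀ ε > 0, |f'| ≤ (1 + ε) * nrm P v' := by
    intro ε hε
    have t1 : Tendsto (fun s' => |slope f s s'|) (𝓝[≠] s) (𝓝 |f'|) := hf2.abs
    have t2 : Tendsto (fun s' => (1 + ε) * nrm P (slope v s s')) (𝓝[≠] s)
        (𝓝 ((1 + ε) * nrm P v')) :=
      ((((continuous_nrm P).tendsto v').comp hv2)).const_mul _
    refine le_of_tendsto_of_tendsto t1 t2 ?_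
    filter_upwards [h ε hε] with s' hs'
    simp only [slope, vsub_eq_sub]
    rw [nrm_smul, smul_eq_mul, abs_mul]
    calc |(s' - s)⁻¹| * |f s' - f s| ≤ |(s' - s)⁻¹| * ((1 + ε) * nrm P (v s' - v s)) := by
          gcongr
      _ = (1 + ε) * (|(s' - s)⁻¹| * nrm P (v s' - v s)) := by ring
  have t3 : Tendsto (fun ε : ℝ => (1 + ε) * nrm P v') (𝓝[>] 0) (𝓝 ((1 + 0) * nrm P v')) := by
    apply Tendsto.mono_left _ nhdsWithin_le_nhds
    have : Continuous fun ε : ℝ => (1 + ε) * nrm P v' := by fun_prop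
    exact this.tendsto 0
  have := ge_of_tendsto t3 (eventually_nhdsWithin_of_forall key)
  simpa using this

theorem nrm_deriv_le_one {P : E →L[ℝ] E →L[ℝ] ℝ} {v : ℝ → E} {s : ℝ} {v' : E}
    (hv : HasDerivAt v v' s)
    (h : ∀ ε > 0, ∀ᶠ s' in 𝓝[≠] s, (1 - ε) * nrm P (v s' - v s) ≤ |s' - s|) :
    nrm P v' ≤ 1 := by
  have hv2 := hasDerivAt_iff_tendsto_slope.1 hv
  have key : ∀ ε > 0, (1 - ε) * nrm P v' ≤ 1 := by
    intro ε hε
    have t2 : Tendsto (fun s' => (1 - ε) * nrm P (slope v s s')) (𝓝[≠] s)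
        (𝓝 ((1 - ε) * nrm P v')) :=
      ((((continuous_nrm P).tendsto v').comp hv2)).const_mul _
    refine le_of_tendsto t2 ?_
    filter_upwards [h ε hε, self_mem_nhdsWithin] with s' hs' hne
    have hne' : s' ≠ s := hne
    simp only [slope, vsub_eq_sub]
    rw [nrm_smul]
    calc (1 - ε) * (|(s' - s)⁻¹| * nrm P (v s' - v s))
        = |(s' - s)⁻¹| * ((1 - ε) * nrm P (v s' - v s)) := by ring
      _ ≤ |(s' - s)⁻¹| * |s' - s| := by gcongr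
      _ = 1 := by
        rw [abs_inv, inv_mul_cancel₀]
        exact abs_ne_zero.2 (sub_ne_zero.2 hne')
  have t3 : Tendsto (fun ε : ℝ => (1 - ε) * nrm P v') (𝓝[>] 0) (𝓝 ((1 - 0) * nrm P v')) := by
    apply Tendsto.mono_left _ nhdsWithin_le_nhds
    have : Continuous fun ε : ℝ => (1 - ε) * nrm P v' := by fun_prop
    exact this.tendsto 0
  have := le_of_tendsto t3 (eventually_nhdsWithin_of_forall key)
  simpa using this

end Norm

section Integral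

variable {E : Type*} [NormedAddCommGroup E] [NormedSpace ℝ E] [FiniteDimensional ℝ E]

theorem integrable_quad {g : E → E →L[ℝ] E →L[ℝ] ℝ} {B : Set E} (hg : ContinuousOn g B)
    {G : ℝ} (hG : ∀ z ∈ B, ‖g z‖ ≤ G) {v : ℝ → E} {K : ℝ≥0} (hv : LipschitzWith K v) {a b : ℝ}
    (hab : a ≤ b) (hB : ∀ s ∈ Icc a b, v s ∈ B) :
    IntervalIntegrable (fun s => g (v s) (deriv v s) (deriv v s)) volume a b := by
  rw [intervalIntegrable_iff_integrableOn_Icc_of_le hab]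
  have : CompleteSpace E := FiniteDimensional.complete ℝ E
  borelize E
  have hvm : AEStronglyMeasurable (deriv v) (volume.restrict (Icc a b)) := by
    have : ProperSpace E := FiniteDimensional.proper ℝ E
    have h := measurable_deriv v
    exact h.aestronglyMeasurable
  have hgm : AEStronglyMeasurable (fun s => g (v s)) (volume.restrict (Icc a b)) := by
    have : ContinuousOn (fun s => g (v s)) (Icc a b) := hg.comp hv.continuous.continuousOn hB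
    exact this.aestronglyMeasurable measurableSet_Icc
  have hm : AEStronglyMeasurable (fun s => g (v s) (deriv v s) (deriv v s))
      (volume.restrict (Icc a b)) := by
    have h1 : AEStronglyMeasurable (fun s => g (v s) (deriv v s)) (volume.restrict (Icc a b)) :=
      (isBoundedBilinearMap_apply (𝕜 := ℝ) (E := E)
        (F := E →L[ℝ] ℝ)).continuous.comp_aestronglyMeasurable (hgm.prodMk hvm)
    exact (isBoundedBilinearMap_apply (𝕜 := ℝ) (E := E)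
        (F := ℝ)).continuous.comp_aestronglyMeasurable (h1.prodMk hvm)
  refine Integrable.of_bound hm (G * K * K) ?_
  rw [ae_restrict_iff' measurableSet_Icc]
  refine Eventually.of_forall fun s hs => ?_
  have h1 : ‖deriv v s‖ ≤ K := norm_deriv_le_of_lipschitz hv
  have h2 := hG _ (hB s hs)
  have h3 := (g (v s)).le_opNorm₂ (deriv v s) (deriv v s)
  have h4 : 0 ≤ G := (norm_nonneg (g (v s))).trans h2
  calc ‖g (v s) (deriv v s) (deriv v s)‖ ≤ ‖g (v s)‖ * ‖deriv v s‖ * ‖deriv v s‖ := h3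
    _ ≤ G * K * K := by gcongr

theorem integrable_deriv_sq {v : ℝ → E} {K : ℝ≥0} (hv : LipschitzWith K v) {a b : ℝ}
    (hab : a ≤ b) : IntervalIntegrable (fun s => ‖deriv v s‖ ^ 2) volume a b := by
  rw [intervalIntegrable_iff_integrableOn_Icc_of_le hab]
  have : CompleteSpace E := FiniteDimensional.complete ℝ E
  borelize E
  have hvm : AEStronglyMeasurable (deriv v) (volume.restrict (Icc a b)) := by
    have : ProperSpace E := FiniteDimensional.proper ℝ E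
    have h := measurable_deriv v
    exact h.aestronglyMeasurable
  refine Integrable.of_bound (hvm.norm.pow 2) ((K : ℝ) ^ 2) ?_
  refine Eventually.of_forall fun s => ?_
  have h1 : ‖deriv v s‖ ≤ K := norm_deriv_le_of_lipschitz hv
  rw [Real.norm_of_nonneg (by positivity)]
  gcongr

end Integral

end KEReg
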