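import Pool.Agent.KEReg.Conv

/-!
# Convexity of an open non-branching subset of a proper geodesic space
-/

open Set Metric Filter Topology
open scoped ENNReal

namespace KEReg

variable {X : Type*} [MetricSpace X]

/-- `x` and `y` are joined by at least one minimal geodesic contained in `R`. -/
def Weak (R : Set X) (x y : X) : Prop := ∃ c : Path x y, IsMinimal c ∧ range c ⊆ R

/-- Every minimal geodesic from `x` to `y` is contained in `R`. -/
def Strong (R : Set X) (x y : X) : Prop := ∀ c : Path x y, IsMinimal c → range c ⊆ R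

/-- `R` is convex: every pair of its points is joined by at least one minimal geodesic contained
in `R`. -/
def IsConvex (R : Set X) : Prop := ∀ x ∈ R, ∀ y ∈ R, Weak R x y

/-- any two points of `X` are joined by a minimal geodesic -/
def IsGeodesicSpace (X : Type*) [MetricSpace X] : Prop :=
  ∀ x y : X, ∃ c : Path x y, IsMinimal c

theorem weak_iff {R : Set X} {x y : X} : Weak R x y ↔
    ∃ γ : ℝ → X, GeodOn γ 0 (dist x y) ∧ γ 0 = x ∧ γ (dist x y) = y ∧
      ∀ s ∈ Icc 0 (dist x y), γ s ∈ R := by
  constructor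
  · rintro ⟨c, hc, hR⟩
    obtain ⟨γ, h1, h2, h3, h4⟩ := hc.exists_geodOn
    refine ⟨γ, h1, h2, h3, fun s hs => hR ?_⟩
    rw [← h4]
    exact mem_image_of_mem γ hs
  · rintro ⟨γ, h1, h2, h3, h4⟩
    obtain ⟨c, hc, hr⟩ := h1.exists_path h2 h3
    refine ⟨c, hc, ?_⟩
    rw [hr]
    rintro _ ⟨s, hs, rfl⟩
    exact h4 s hs

theorem strong_iff {R : Set X} {x y : X} : Strong R x y ↔
    ∀ γ : ℝ → X, GeodOn γ 0 (dist x y) → γ 0 = x → γ (dist x y) = y →
      ∀ s ∈ Icc 0 (dist x y), γ s ∈ R := by
  constructor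
  · intro h γ h1 h2 h3 s hs
    obtain ⟨c, hc, hr⟩ := h1.exists_path h2 h3
    apply h c hc
    rw [hr]
    exact mem_image_of_mem γ hs
  · intro h c hc
    obtain ⟨γ, h1, h2, h3, h4⟩ := hc.exists_geodOn
    rw [← h4]
    rintro _ ⟨s, hs, rfl⟩
    exact h γ h1 h2 h3 s hs

theorem IsGeodesicSpace.exists_geodOn (hX : IsGeodesicSpace X) (x y : X) :
    ∃ γ : ℝ → X, GeodOn γ 0 (dist x y) ∧ γ 0 = x ∧ γ (dist x y) = y := by
  obtain ⟨c, hc⟩ := hX x y
  obtain ⟨γ, h1, h2, h3, -⟩ := hc.exists_geodOn
  exact ⟨γ, h1, h2, h3⟩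

/-- a minimal geodesic through `p` when the triangle inequality at `p` is an equality -/
theorem IsGeodesicSpace.through (hX : IsGeodesicSpace X) {x y p : X}
    (h : dist x p + dist p y = dist x y) :
    ∃ γ : ℝ → X, GeodOn γ 0 (dist x y) ∧ γ 0 = x ∧ γ (dist x y) = y ∧ γ (dist x p) = p := by
  obtain ⟨f, hf1, hf2, hf3⟩ := hX.exists_geodOn x p
  obtain ⟨g, hg1, hg2, hg3⟩ := hX.exists_geodOn p y
  let g' : ℝ → X := fun r => g (r - dist x p)
  have hg' : GeodOn g' (dist x p) (dist x y) := by
    intro s hs t ht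
    simp only [g']
    rw [hg1 _ ⟨by linarith [hs.1], by linarith [hs.2]⟩ _ ⟨by linarith [ht.1], by linarith [ht.2]⟩]
    congr 1; ring
  have hfg : f (dist x p) = g' (dist x p) := by
    simp only [g', sub_self, hf3, hg2]
  have hgy : g' (dist x y) = y := by
    simp only [g']
    rw [← h, add_sub_cancel_left, hg3]
  have hcat := GeodOn.concat dist_nonneg (by linarith [dist_nonneg (x := p) (y := y)])
    hf1 hg' hfg (by rw [hf2, hgy, sub_zero])
  refine ⟨_, hcat, ?_, ?_, ?_⟩
  · simp only [dist_nonneg, if_true, hf2]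
  · by_cases h1 : dist x y ≤ dist x p
    · have h2 : dist p y = 0 := le_antisymm (by linarith) dist_nonneg
      have h3 : dist x y = dist x p := by linarith
      simp only [h3, le_refl, if_true, hf3]
      exact dist_eq_zero.1 h2
    · simp only [h1, if_false, hgy]
  · simp only [le_refl, if_true, hf3]

theorem strong_iff_dist (hX : IsGeodesicSpace X) {R : Set X} {x y : X} : Strong R x y ↔
    ∀ p, p ∉ R → dist x y < dist x p + dist p y := by
  rw [strong_iff]
  constructor
  · intro h p hp
    by_contra hcon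
    push Not at hcon
    have heq : dist x p + dist p y = dist x y := le_antisymm hcon (dist_triangle _ _ _)
    obtain ⟨γ, h1, h2, h3, h4⟩ := hX.through heq
    apply hp
    rw [← h4]
    exact h γ h1 h2 h3 _ ⟨dist_nonneg, by linarith [dist_nonneg (x := p) (y := y)]⟩
  · intro h γ h1 h2 h3 s hs
    by_contra hcon
    have h4 := h (γ s) hcon
    have h5 : dist x (γ s) = s := by
      conv_lhs => rw [← h2]
      rw [h1 0 ⟨le_rfl, dist_nonneg⟩ s hs, abs_of_nonpos (by linarith [hs.1])]
      ring
    have h6 : dist (γ s) y = dist x y - s := by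
      conv_lhs => rw [← h3]
      rw [h1 s hs _ ⟨dist_nonneg, le_rfl⟩, abs_of_nonpos (by linarith [hs.2])]
      ring
    linarith

/-- the set of pairs all of whose minimal geodesics lie in `R` is open -/
theorem isOpen_strong [ProperSpace X] (hX : IsGeodesicSpace X) {R : Set X} (hR : IsOpen R) :
    IsOpen {xy : X × X | Strong R xy.1 xy.2} := by
  rw [← isClosed_compl_iff, ← isSeqClosed_iff_isClosed]
  intro u z hu huz
  have hu' : ∀ n, ∃ p, p ∉ R ∧ dist (u n).1 p + dist p (u n).2 ≤ dist (u n).1 (u n).2 := by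
    intro n
    have h1 : ¬ Strong R (u n).1 (u n).2 := hu n
    rw [strong_iff_dist hX] at h1
    push Not at h1
    exact h1
  choose p hpR hp using hu'
  have h1 : Tendsto (fun n => (u n).1) atTop (𝓝 z.1) := (continuous_fst.tendsto z).comp huz
  have h2 : Tendsto (fun n => (u n).2) atTop (𝓝 z.2) := (continuous_snd.tendsto z).comp huz
  -- boundedness
  have hb1 : Bornology.IsBounded (range fun n => (u n).1) := isBounded_range_of_tendsto _ h1
  have hb2 : Bornology.IsBounded (range fun n => (u n).2) := isBounded_range_of_tendsto _ h2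
  obtain ⟨C1, hC1⟩ := hb1.subset_closedBall z.1
  obtain ⟨C2, hC2⟩ := hb2.subset_closedBall z.1
  have hpb : ∀ n, p n ∈ closedBall z.1 (C1 + C2 + C1) := by
    intro n
    rw [mem_closedBall]
    have e1 : dist (u n).1 z.1 ≤ C1 := hC1 (mem_range_self n)
    have e2 : dist (u n).2 z.1 ≤ C2 := hC2 (mem_range_self n)
    have e3 := hp n
    have e4 := dist_triangle (u n).1 z.1 (u n).2
    have e5 := dist_triangle (p n) (u n).1 z.1
    rw [dist_comm z.1] at e4
    rw [dist_comm (p n) (u n).1] at e5
    have e6 := dist_nonneg (x := p n) (y := (u n).2)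
    linarith
  obtain ⟨q, hq, φ, hφ, hφq⟩ := tendsto_subseq_of_bounded isBounded_closedBall hpb
  have hqR : q ∉ R := by
    have : q ∈ Rᶜ := hR.isClosed_compl.mem_of_tendsto hφq (Eventually.of_forall fun n => hpR (φ n))
    exact this
  change ¬ Strong R z.1 z.2
  rw [strong_iff_dist hX]
  push Not
  refine ⟨q, hqR, ?_⟩
  have h1' := h1.comp hφ.tendsto_atTop
  have h2' := h2.comp hφ.tendsto_atTop
  exact le_of_tendsto_of_tendsto' ((h1'.dist hφq).add (hφq.dist h2')) (h1'.dist h2')
    fun n => hp (φ n)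

theorem strong_imp_weak (hX : IsGeodesicSpace X) {R : Set X} {x y : X} (h : Strong R x y) :
    Weak R x y := by
  obtain ⟨c, hc⟩ := hX x y
  exact ⟨c, hc, h c hc⟩

/-- the interior of the weak set is contained in the strong set (no properness needed) -/
theorem strong_of_mem_interior {R : Set X} (hR : IsOpen R) (hnb : ∀ p ∈ R, NonBranchingAt p)
    {x y : X} (h : y ∈ interior {z | Weak R x z}) : Strong R x y := by
  rw [strong_iff]
  intro γ h1 h2 h3
  rw [mem_interior_iff_mem_nhds] at h
  exact mem_of_eventually_weak hR hnb h (fun z hz => weak_iff.1 hz) dist_nonneg h1 h2 h3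

theorem strong_eq_interior [ProperSpace X] (hX : IsGeodesicSpace X) {R : Set X} (hR : IsOpen R)
    (hnb : ∀ p ∈ R, NonBranchingAt p) (x : X) :
    {y | Strong R x y} = interior {y | Weak R x y} := by
  apply Subset.antisymm
  · apply interior_maximal
    · exact fun y hy => strong_imp_weak hX hy
    · have h1 := isOpen_strong hX hR
      have h2 : Continuous fun y : X => (x, y) := by fun_prop
      exact h1.preimage h2
  · exact fun y hy => strong_of_mem_interior hR hnb hy

theorem strong_eq_interior_prod [ProperSpace X] (hX : IsGeodesicSpace X) {R : Set X}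
    (hR : IsOpen R) (hnb : ∀ p ∈ R, NonBranchingAt p) :
    {xy : X × X | Strong R xy.1 xy.2} = interior {xy : X × X | Weak R xy.1 xy.2} := by
  apply Subset.antisymm
  · exact interior_maximal (fun xy h => strong_imp_weak hX h) (isOpen_strong hX hR)
  · rintro ⟨x, y⟩ hxy
    apply strong_of_mem_interior hR hnb
    have h2 : Continuous fun y : X => (x, y) := by fun_prop
    rw [mem_interior_iff_mem_nhds] at hxy ⊢
    exact h2.continuousAt.preimage_mem_nhds hxy

theorem isConvex_iff_strong (hX : IsGeodesicSpace X) {R : Set X} (hR : IsOpen R)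
    (hnb : ∀ p ∈ R, NonBranchingAt p) :
    IsConvex R ↔ ∀ x ∈ R, ∀ y ∈ R, Strong R x y := by
  constructor
  · intro h x hx y hy
    apply strong_of_mem_interior hR hnb
    rw [mem_interior_iff_mem_nhds]
    exact Filter.mem_of_superset (hR.mem_nhds hy) fun z hz => h x hx z hz
  · exact fun h x hx y hy => strong_imp_weak hX (h x hx y hy)

theorem isConvex_iff_dist (hX : IsGeodesicSpace X) {R : Set X} (hR : IsOpen R)
    (hnb : ∀ p ∈ R, NonBranchingAt p) :
    IsConvex R ↔ ∀ x ∈ R, ∀ y ∈ R, ∀ p, p ∉ R → dist x y < dist x p + dist p y := by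
  rw [isConvex_iff_strong hX hR hnb]
  simp only [strong_iff_dist hX]

end KEReg
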