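import Pool.Agent.KEReg.Geo

/-!
# Quotients by finite groups of isometries
-/

open Set Metric Filter Topology

namespace KEReg

variable {X Y : Type*} [MetricSpace X] [MetricSpace Y] {G : Type*} [Group G] [MulAction G Y]

/-- `π : Y → X` is the metric quotient of `Y` by the group `G`: it is onto and the distance of
`π x` and `π y` is the minimum of the distances from `x` to the points `g • y`. -/
structure IsMetricQuotient (G : Type*) [Group G] [MulAction G Y] (π : Y → X) : Prop where
  surj : Function.Surjective π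
  le : ∀ (x y : Y) (g : G), dist (π x) (π y) ≤ dist x (g • y)
  attained : ∀ x y : Y, ∃ g : G, dist (π x) (π y) = dist x (g • y)

/-- the points with trivial stabiliser -/
def freePart (G : Type*) [Group G] [MulAction G Y] (S : Set Y) : Set Y :=
  {y ∈ S | ∀ g : G, g • y = y → g = 1}

theorem IsMetricQuotient.le_dist {π : Y → X} (h : IsMetricQuotient G π) (x y : Y) :
    dist (π x) (π y) ≤ dist x y := by simpa using h.le x y 1

theorem IsMetricQuotient.smul {π : Y → X} (h : IsMetricQuotient G π) (g : G) (y : Y) :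
    π (g • y) = π y := by
  have := h.le (g • y) y g
  rw [dist_self] at this
  exact dist_le_zero.1 this

theorem IsMetricQuotient.exists_smul {π : Y → X} (h : IsMetricQuotient G π) {x y : Y}
    (hxy : π x = π y) : ∃ g : G, x = g • y := by
  obtain ⟨g, hg⟩ := h.attained x y
  rw [hxy, dist_self] at hg
  exact ⟨g, dist_eq_zero.1 hg.symm⟩

omit [MetricSpace Y] in
theorem smul_mem_freePart {S : Set Y} (hS : ∀ (g : G), ∀ y ∈ S, g • y ∈ S) (g : G) {y : Y}
    (hy : y ∈ freePart G S) : g • y ∈ freePart G S := by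
  refine ⟨hS g y hy.1, fun h hh => ?_⟩
  have h1 : (g⁻¹ * h * g) • y = y := by
    rw [mul_smul, mul_smul, hh, inv_smul_smul]
  have h2 := hy.2 _ h1
  have h3 : h = g * (g⁻¹ * h * g) * g⁻¹ := by group
  rw [h3, h2]; group

variable [IsIsometricSMul G Y]

theorem isOpen_freePart [Finite G] {S : Set Y} (hS : IsOpen S) : IsOpen (freePart G S) := by
  have : freePart G S = S ∩ ⋂ g : {g : G // g ≠ 1}, {y : Y | g.1 • y ≠ y} := by
    ext y
    simp only [freePart, mem_sep_iff, mem_inter_iff, mem_iInter, Subtype.forall]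
    constructor
    · rintro ⟨h1, h2⟩
      exact ⟨h1, fun g hg hy => hg (h2 g hy)⟩
    · rintro ⟨h1, h2⟩
      refine ⟨h1, fun g hg => ?_⟩
      by_contra hne
      exact h2 g hne hg
  rw [this]
  apply hS.inter
  apply isOpen_iInter_of_finite
  intro g
  exact isOpen_ne_fun (continuous_const_smul g.1) continuous_id

omit [IsIsometricSMul G Y] in
/-- the quotient map is open -/
theorem IsMetricQuotient.isOpen_image {π : Y → X} (h : IsMetricQuotient G π) {U : Set Y}
    (hU : IsOpen U) : IsOpen (π '' U) := by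
  rw [Metric.isOpen_iff]
  rintro _ ⟨x, hx, rfl⟩
  obtain ⟨ε, hε, hsub⟩ := Metric.isOpen_iff.1 hU x hx
  refine ⟨ε, hε, fun a ha => ?_⟩
  obtain ⟨y, rfl⟩ := h.surj a
  obtain ⟨g, hg⟩ := h.attained x y
  refine ⟨g • y, hsub ?_, h.smul g y⟩
  rw [mem_ball, dist_comm] at ha ⊢
  rwa [← hg]

/-- local isometry near a point with trivial stabiliser -/
theorem IsMetricQuotient.local_isometry [Finite G] {π : Y → X} (h : IsMetricQuotient G π) {p : Y}
    (hp : ∀ g : G, g • p = p → g = 1) :
    ∃ r > 0, ∀ x ∈ ball p r, ∀ y ∈ ball p r, dist (π x) (π y) = dist x y := by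
  classical
  obtain ⟨r, hr, hrg⟩ : ∃ r > 0, ∀ g : G, g ≠ 1 → 4 * r ≤ dist p (g • p) := by
    have hfin : (Set.range fun g : {g : G // g ≠ 1} => dist p (g.1 • p)).Finite :=
      Set.finite_range _
    rcases (Set.range fun g : {g : G // g ≠ 1} => dist p (g.1 • p)).eq_empty_or_nonempty with
      hne | hne
    · refine ⟨1, one_pos, fun g hg => ?_⟩
      exfalso
      have : dist p (g • p) ∈ Set.range fun g : {g : G // g ≠ 1} => dist p (g.1 • p) :=
        ⟨⟨g, hg⟩, rfl⟩
      rw [hne] at this
      exact this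
    · obtain ⟨m, ⟨g₀, hg₀⟩, hmin⟩ := Set.exists_min_image _ id hfin hne
      have hm : 0 < m := by
        rw [← hg₀]
        simp only
        rw [dist_pos]
        intro hcon
        exact g₀.2 (hp g₀.1 hcon.symm)
      refine ⟨m / 4, by positivity, fun g hg => ?_⟩
      have := hmin (dist p (g • p)) ⟨⟨g, hg⟩, rfl⟩
      simp only [id] at this
      linarith
  refine ⟨r, hr, fun x hx y hy => ?_⟩
  rw [mem_ball] at hx hy
  obtain ⟨g, hg⟩ := h.attained x y
  by_cases h1 : g = 1
  · rw [hg, h1, one_smul]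
  · exfalso
    have h2 := hrg g h1
    have h3 : dist (g • y) (g • p) = dist y p := dist_smul g y p
    have h4 := dist_triangle4 p x (g • y) (g • p)
    have h5 := h.le_dist x y
    have h6 := dist_triangle_right x y p
    rw [h3, dist_comm p x] at h4
    linarith

/-- non-branching passes to the quotient at free points -/
theorem IsMetricQuotient.nonBranchingAt [Finite G] {π : Y → X} (h : IsMetricQuotient G π) {p : Y}
    (hp : ∀ g : G, g • p = p → g = 1) (hnb : NonBranchingAt p) : NonBranchingAt (π p) := by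
  obtain ⟨r, hr, hloc⟩ := h.local_isometry hp
  -- a section over the ball
  have hsec : ∀ a : X, ∃ y : Y, dist a (π p) < r → (π y = a ∧ y ∈ ball p r) := by
    intro a
    obtain ⟨y, rfl⟩ := h.surj a
    obtain ⟨g, hg⟩ := h.attained p y
    refine ⟨g • y, fun ha => ⟨h.smul g y, ?_⟩⟩
    rw [mem_ball, dist_comm, ← hg, dist_comm]
    exact ha
  choose lam hlam using hsec
  intro γ σ a b c hab hbc hγ hσ hγb heq
  have hσb : σ b = π p := by rw [← heq b ⟨hab.le, le_rfl⟩]; exact hγb
  set δ := min (min (b - a) (c - b)) (r / 2) with hδ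
  have hδ0 : 0 < δ := lt_min (lt_min (by linarith) (by linarith)) (by linarith)
  have hδa : δ ≤ b - a := (min_le_left _ _).trans (min_le_left _ _)
  have hδc : δ ≤ c - b := (min_le_left _ _).trans (min_le_right _ _)
  have hδr : δ < r := lt_of_le_of_lt (min_le_right _ _) (by linarith)
  have hin : ∀ x : ℝ → X, GeodOn x a c → x b = π p → ∀ s ∈ Icc (b - δ) (b + δ),
      dist (x s) (π p) < r := by
    intro x hx hxb s hs
    rw [← hxb, hx s ⟨by linarith [hs.1], by linarith [hs.2]⟩ b ⟨hab.le, hbc.le⟩]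
    refine lt_of_le_of_lt ?_ hδr
    rw [abs_le]
    constructor <;> linarith [hs.1, hs.2]
  have hlift : ∀ x : ℝ → X, GeodOn x a c → x b = π p →
      GeodOn (fun s => lam (x s)) (b - δ) (b + δ) := by
    intro x hx hxb s hs t ht
    obtain ⟨h1, h2⟩ := hlam _ (hin x hx hxb s hs)
    obtain ⟨h3, h4⟩ := hlam _ (hin x hx hxb t ht)
    simp only
    rw [← hloc _ h2 _ h4, h1, h3]
    exact hx s ⟨by linarith [hs.1], by linarith [hs.2]⟩ t ⟨by linarith [ht.1], by linarith [ht.2]⟩
  have hlp : lam (π p) = p := by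
    obtain ⟨h1, h2⟩ := hlam (π p) (by rw [dist_self]; exact hr)
    have h3 := hloc _ h2 p (mem_ball_self hr)
    rw [h1, dist_self] at h3
    exact dist_eq_zero.1 h3.symm
  obtain ⟨ε, hε, hfin⟩ := hnb (fun s => lam (γ s)) (fun s => lam (σ s)) (b - δ) b (b + δ)
    (by linarith) (by linarith) (hlift γ hγ hγb) (hlift σ hσ hσb) (by simp only [hγb, hlp])
    (fun s hs => by rw [heq s ⟨by linarith [hs.1], hs.2⟩])
  refine ⟨min ε δ, lt_min hε hδ0, fun s hs _ => ?_⟩
  have hs1 : s ≤ b + ε := hs.2.trans (by linarith [min_le_left ε δ])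
  have hs2 : s ≤ b + δ := hs.2.trans (by linarith [min_le_right ε δ])
  have h1 := hfin s ⟨hs.1, hs1⟩ hs2
  have hm : s ∈ Icc (b - δ) (b + δ) := ⟨by linarith [hs.1], hs2⟩
  rw [← (hlam _ (hin γ hγ hγb s hm)).1, ← (hlam _ (hin σ hσ hσb s hm)).1]
  rw [h1]

/-- a minimal geodesic in `Y` between points at the distance of their orbits stays in the free
part if it stays in a non-branching invariant set -/
theorem mem_freePart_of_geodOn {S : Set Y}
    (hnb : ∀ p ∈ S, NonBranchingAt p) {x y : Y} (hx : x ∈ freePart G S) (hy : y ∈ freePart G S)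
    (hdir : ∀ g : G, dist x y ≤ dist x (g • y)) {γ : ℝ → Y} (hγ : GeodOn γ 0 (dist x y))
    (h0 : γ 0 = x) (h1 : γ (dist x y) = y) (hin : ∀ s ∈ Icc 0 (dist x y), γ s ∈ S) :
    ∀ s ∈ Icc 0 (dist x y), γ s ∈ freePart G S := by
  intro s hs
  refine ⟨hin s hs, fun g hg => ?_⟩
  set L := dist x y with hL
  rcases hs.1.eq_or_lt with h2 | hs0
  · rw [← h2, h0] at hg
    exact hx.2 g hg
  -- the branched curve
  have hgγ : GeodOn (fun r => g • γ r) s L := by
    intro a ha b hb
    simp only [dist_smul]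
    exact hγ a ⟨hs.1.trans ha.1, ha.2⟩ b ⟨hs.1.trans hb.1, hb.2⟩
  have hgy : dist x (g • y) = L := by
    apply le_antisymm _ (hdir g)
    have e1 : dist x (γ s) = s := by
      rw [← h0, hγ 0 ⟨le_rfl, dist_nonneg⟩ s hs, abs_of_nonpos (by linarith)]; ring
    have e2 : dist (γ s) (g • y) = L - s := by
      have : dist (g • γ s) (g • y) = dist (γ s) y := dist_smul g _ _
      rw [hg] at this
      rw [this]
      conv_lhs => rw [← h1]
      rw [hγ s hs L ⟨dist_nonneg, le_rfl⟩, abs_of_nonpos (by linarith [hs.2])]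
      ring
    have := dist_triangle x (γ s) (g • y)
    linarith
  have hcat := GeodOn.concat hs.1 hs.2 (hγ.mono le_rfl hs.2) hgγ hg.symm (by
    simp only [h0, h1, sub_zero]; exact hgy)
  have key := eqOn_of_nonBranching hnb (a := 0) (b := s) (e := L) (c := L) hs0 le_rfl hγ hcat ?_ ?_
    L ⟨dist_nonneg, le_rfl⟩
  · rcases hs.2.eq_or_lt with h2 | h2
    · rw [h2, h1] at hg
      exact hy.2 g hg
    · simp only [not_le.2 h2, if_false, h1] at key
      exact hy.2 g key.symm
  · intro r hr
    simp only [hr.2, if_true]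
  · exact fun r hr => hin r ⟨hs.1.trans hr.1, hr.2.le⟩

/-- Convexity of the free part of the quotient is convexity in `Y` of the pairs of free points
whose distance is the distance of their orbits. -/
theorem isConvex_quotient_iff [Finite G] {π : Y → X} (h : IsMetricQuotient G π)
    (hY : IsGeodesicSpace Y) {S : Set Y} (hS : IsOpen S)
    (hSG : ∀ (g : G), ∀ y ∈ S, g • y ∈ S) (hnb : ∀ p ∈ S, NonBranchingAt p) :
    IsConvex (π '' freePart G S) ↔
      ∀ x ∈ freePart G S, ∀ y ∈ freePart G S, (∀ g : G, dist x y ≤ dist x (g • y)) →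
        Weak S x y := by
  have hπγ : ∀ {x y : Y} {γ : ℝ → Y}, GeodOn γ 0 (dist x y) → γ 0 = x → γ (dist x y) = y →
      dist (π x) (π y) = dist x y → GeodOn (fun s => π (γ s)) 0 (dist x y) := by
    intro x y γ hγ h0 h1 hd
    have key : ∀ s ∈ Icc 0 (dist x y), ∀ t ∈ Icc 0 (dist x y), s ≤ t →
        dist (π (γ s)) (π (γ t)) = t - s := by
      intro s hs t ht hst
      have e1 : dist (π x) (π (γ s)) ≤ s := by
        refine (h.le_dist _ _).trans (le_of_eq ?_)
        conv_lhs => rw [← h0]
        rw [hγ 0 ⟨le_rfl, dist_nonneg⟩ s hs, abs_of_nonpos (by linarith [hs.1])]; ring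
      have e2 : dist (π (γ s)) (π (γ t)) ≤ t - s := by
        refine (h.le_dist _ _).trans (le_of_eq ?_)
        rw [hγ s hs t ht, abs_of_nonpos (by linarith)]; ring
      have e3 : dist (π (γ t)) (π y) ≤ dist x y - t := by
        refine (h.le_dist _ _).trans (le_of_eq ?_)
        have : dist (γ t) (γ (dist x y)) = dist x y - t := by
          rw [hγ t ht _ ⟨dist_nonneg, le_rfl⟩, abs_of_nonpos (by linarith [ht.2])]; ring
        rwa [h1] at this
      have e4 := dist_triangle4 (π x) (π (γ s)) (π (γ t)) (π y)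
      rw [hd] at e4
      linarith
    intro s hs t ht
    rcases le_total s t with hst | hst
    · rw [key s hs t ht hst, abs_of_nonpos (by linarith)]; ring
    · rw [dist_comm, key t ht s hs hst, abs_of_nonneg (by linarith)]
  have hdir' : ∀ {x y : Y}, (∀ g : G, dist x y ≤ dist x (g • y)) → dist (π x) (π y) = dist x y := by
    intro x y hd
    obtain ⟨g, hg⟩ := h.attained x y
    apply le_antisymm (h.le_dist x y)
    rw [hg]
    exact hd g
  have hRo : IsOpen (π '' freePart G S) := h.isOpen_image (isOpen_freePart hS)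
  have hRnb : ∀ p ∈ π '' freePart G S, NonBranchingAt p := by
    rintro _ ⟨q, hq, rfl⟩
    exact h.nonBranchingAt hq.2 (hnb q hq.1)
  constructor
  · intro hconv x hx y hy hd
    obtain ⟨γ, hγ, h0, h1⟩ := hY.exists_geodOn x y
    have hdd := hdir' hd
    have hgeo := hπγ hγ h0 h1 hdd
    have hs : Strong (π '' freePart G S) (π x) (π y) := by
      apply strong_of_mem_interior hRo hRnb
      rw [mem_interior_iff_mem_nhds]
      exact Filter.mem_of_superset (hRo.mem_nhds ⟨y, hy, rfl⟩) fun z hz =>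
        hconv _ ⟨x, hx, rfl⟩ z hz
    rw [strong_iff, hdd] at hs
    have hs' := hs _ hgeo (by simp only [h0]) (by simp only [h1])
    rw [weak_iff]
    refine ⟨γ, hγ, h0, h1, fun s hsI => ?_⟩
    obtain ⟨q, hq, hqs⟩ := hs' s hsI
    obtain ⟨g, hg⟩ := h.exists_smul hqs.symm
    rw [hg]
    exact hSG g q hq.1
  · rintro hweak _ ⟨x, hx, rfl⟩ _ ⟨y, hy, rfl⟩
    obtain ⟨g, hg⟩ := h.attained x y
    have hy' := smul_mem_freePart hSG g hy
    have hd : ∀ k : G, dist x (g • y) ≤ dist x (k • (g • y)) := by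
      intro k
      rw [← hg]
      have := h.le x (g • y) k
      rwa [h.smul] at this
    have hπy : π (g • y) = π y := h.smul g y
    rw [← hπy]
    obtain ⟨γ, hγ, h0, h1, hin⟩ := weak_iff.1 (hweak x hx (g • y) hy' hd)
    have hfree := mem_freePart_of_geodOn hnb hx hy' hd hγ h0 h1 hin
    have hdd := hdir' hd
    rw [weak_iff, hdd]
    exact ⟨fun s => π (γ s), hπγ hγ h0 h1 hdd, by simp only [h0], by simp only [h1],
      fun s hs => ⟨γ s, hfree s hs, rfl⟩⟩

end KEReg
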