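import Pool.Agent.KEReg.Basic
import Pool.Agent.KEReg.Coord

/-!
# Minimal geodesics do not branch at a point near which the metric is Riemannian
-/

open Set Metric Filter Topology MeasureTheory
open scoped NNReal

namespace KEReg

section Tensor

variable {E : Type*} [NormedAddCommGroup E] [NormedSpace ℝ E] [FiniteDimensional ℝ E]

omit [FiniteDimensional ℝ E] in
/-- second differences of a function with Lipschitz derivative -/
theorem second_difference {F : Type*} [NormedAddCommGroup F] [NormedSpace ℝ F] {g : E → F}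
    {B : Set E} (hBc : Convex ℝ B) {K : ℝ≥0}
    (hd : ∀ z ∈ B, DifferentiableAt ℝ g z) (hL : LipschitzOnWith K (fderiv ℝ g) B)
    {m b : E} (hm : m ∈ B) (h1 : m + b ∈ B) (h2 : m - b ∈ B) :
    ‖g (m + b) + g (m - b) - (2 : ℝ) • g m‖ ≤ 2 * K * ‖b‖ ^ 2 := by
  have hmem1 : ∀ s ∈ Icc (0 : ℝ) 1, m + s • b ∈ B := by
    intro s hs
    have : m + s • b = (1 - s) • m + s • (m + b) := by module
    rw [this]
    exact hBc hm h1 (by linarith [hs.2]) hs.1 (by ring)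
  have hmem2 : ∀ s ∈ Icc (0 : ℝ) 1, m - s • b ∈ B := by
    intro s hs
    have : m - s • b = (1 - s) • m + s • (m - b) := by module
    rw [this]
    exact hBc hm h2 (by linarith [hs.2]) hs.1 (by ring)
  have key := norm_image_sub_le_of_norm_deriv_le_segment_01'
    (f := fun s : ℝ => g (m + s • b) + g (m - s • b))
    (f' := fun s : ℝ => fderiv ℝ g (m + s • b) b + fderiv ℝ g (m - s • b) (-b))
    (C := 2 * K * ‖b‖ ^ 2) ?_ ?_
  · have e1 : g (m + (1 : ℝ) • b) + g (m - (1 : ℝ) • b) - (g (m + (0 : ℝ) • b) +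
        g (m - (0 : ℝ) • b)) = g (m + b) + g (m - b) - (2 : ℝ) • g m := by
      simp only [one_smul, zero_smul, add_zero, sub_zero]
      module
    rw [← e1]
    exact key
  · intro s hs
    have hA : HasDerivAt (fun s : ℝ => m + s • b) b s := by
      simpa using ((hasDerivAt_id s).smul_const b).const_add m
    have hB : HasDerivAt (fun s : ℝ => m - s • b) (-b) s := by
      simpa using ((hasDerivAt_id s).smul_const b).const_sub m
    have h3 := (hd _ (hmem1 s hs)).hasFDerivAt.comp_hasDerivAt s hA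
    have h4 := (hd _ (hmem2 s hs)).hasFDerivAt.comp_hasDerivAt s hB
    exact (h3.add h4).hasDerivWithinAt
  · intro s hs
    have hs' : s ∈ Icc (0 : ℝ) 1 := ⟨hs.1, hs.2.le⟩
    have e2 : fderiv ℝ g (m + s • b) b + fderiv ℝ g (m - s • b) (-b) =
        (fderiv ℝ g (m + s • b) - fderiv ℝ g (m - s • b)) b := by
      rw [map_neg, sub_apply]; abel
    rw [e2]
    have h5 := hL.dist_le_mul _ (hmem1 s hs') _ (hmem2 s hs')
    rw [dist_eq_norm, dist_eq_norm] at h5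
    have e3 : m + s • b - (m - s • b) = (2 * s) • b := by module
    rw [e3, norm_smul, Real.norm_of_nonneg (by linarith [hs.1])] at h5
    calc ‖(fderiv ℝ g (m + s • b) - fderiv ℝ g (m - s • b)) b‖ ≤
        ‖fderiv ℝ g (m + s • b) - fderiv ℝ g (m - s • b)‖ * ‖b‖ :=
          ContinuousLinearMap.le_opNorm _ _
      _ ≤ (K * (2 * s * ‖b‖)) * ‖b‖ := by gcongr
      _ ≤ (K * (2 * 1 * ‖b‖)) * ‖b‖ := by
        have := hs.2.le
        gcongr
      _ = _ := by ring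

omit [FiniteDimensional ℝ E] in
theorem eventually_close {F : Type*} [NormedAddCommGroup F] [NormedSpace ℝ F] {g : E → F} {z₀ : E}
    (hg : ContDiffAt ℝ 2 g z₀) {η : ℝ} (hη : 0 < η) : ∀ᶠ z in 𝓝 z₀, ‖g z - g z₀‖ < η := by
  have h2 : ContinuousAt (fun z => ‖g z - g z₀‖) z₀ :=
    (hg.continuousAt.sub continuousAt_const).norm
  have h3 : ‖g z₀ - g z₀‖ < η := by rw [sub_self, norm_zero]; exact hη
  exact h2.eventually_lt continuousAt_const h3

theorem norm_le_add {F : Type*} [NormedAddCommGroup F] (a b : F) : ‖a‖ ≤ ‖b‖ + ‖a - b‖ := by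
  calc ‖a‖ = ‖b + (a - b)‖ := by congr 1; abel
    _ ≤ _ := norm_add_le _ _

omit [FiniteDimensional ℝ E] in
/-- local Lipschitz and second difference bounds of a `C²` function -/
theorem exists_second {F : Type*} [NormedAddCommGroup F] [NormedSpace ℝ F] {g : E → F} {z₀ : E}
    (hg : ContDiffAt ℝ 2 g z₀) : ∃ K1 K2 : ℝ≥0, ∃ ρ > 0,
      (∀ z ∈ ball z₀ ρ, ∀ z' ∈ ball z₀ ρ, ‖g z - g z'‖ ≤ K1 * ‖z - z'‖) ∧
      ∀ ρ' ≤ ρ, ∀ m b, m ∈ ball z₀ ρ' → m + b ∈ ball z₀ ρ' → m - b ∈ ball z₀ ρ' →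
        ‖g (m + b) + g (m - b) - (2 : ℝ) • g m‖ ≤ 2 * K2 * ‖b‖ ^ 2 := by
  have hg1 : ContDiffAt ℝ 1 g z₀ := hg.of_le (by norm_num)
  have hfd : ContDiffAt ℝ 1 (fderiv ℝ g) z₀ := hg.fderiv_right (by norm_num)
  obtain ⟨K1, t1, ht1, hL1⟩ := hg1.exists_lipschitzOnWith
  obtain ⟨K2, t2, ht2, hL2⟩ := hfd.exists_lipschitzOnWith
  have hdiff : ∀ᶠ z in 𝓝 z₀, DifferentiableAt ℝ g z := by
    have := hg1.eventually (by simp)
    filter_upwards [this] with z hz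
    exact hz.differentiableAt (by norm_num)
  obtain ⟨ρ, hρ, hsub⟩ := Metric.mem_nhds_iff.1
    (Filter.inter_mem (Filter.inter_mem ht1 ht2) hdiff)
  refine ⟨K1, K2, ρ, hρ, ?_, ?_⟩
  · intro z hz z' hz'
    have h1 := hL1.dist_le_mul z (hsub hz).1.1 z' (hsub hz').1.1
    rwa [dist_eq_norm, dist_eq_norm] at h1
  · intro ρ' hρ' m b hm h1 h2
    have hsub' : ball z₀ ρ' ⊆ ball z₀ ρ := ball_subset_ball hρ'
    exact second_difference (convex_ball z₀ ρ') (K := K2)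
      (fun z hz => (hsub (hsub' hz)).2) (hL2.mono fun z hz => (hsub (hsub' hz)).1.2) hm h1 h2

/-- a positive definite form on a finite dimensional space is bounded below -/
theorem exists_lower {P : E →L[ℝ] E →L[ℝ] ℝ} (hP : ∀ v, v ≠ 0 → 0 < P v v) :
    ∃ l > 0, ∀ v, l * ‖v‖ ^ 2 ≤ P v v := by
  have : ProperSpace E := FiniteDimensional.proper ℝ E
  rcases (sphere (0 : E) 1).eq_empty_or_nonempty with hne | hne
  · refine ⟨1, one_pos, fun v => ?_⟩
    by_cases hv : v = 0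
    · subst hv; simp
    · exfalso
      have h1 : (‖v‖⁻¹ : ℝ) • v ∈ sphere (0 : E) 1 := by
        rw [mem_sphere_zero_iff_norm, norm_smul, norm_inv, norm_norm,
          inv_mul_cancel₀ (norm_ne_zero_iff.2 hv)]
      rw [hne] at h1
      exact h1
  · have hc : Continuous fun v : E => P v v := by fun_prop
    obtain ⟨v₀, hv₀, hmin⟩ := (isCompact_sphere (0 : E) 1).exists_isMinOn hne hc.continuousOn
    have hv₀n : ‖v₀‖ = 1 := mem_sphere_zero_iff_norm.1 hv₀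
    refine ⟨P v₀ v₀, hP v₀ (by intro h; rw [h, norm_zero] at hv₀n; exact zero_ne_one hv₀n), ?_⟩
    intro v
    by_cases hv : v = 0
    · subst hv; simp
    · have hvn : 0 < ‖v‖ := norm_pos_iff.2 hv
      have h1 : (‖v‖⁻¹ : ℝ) • v ∈ sphere (0 : E) 1 := by
        rw [mem_sphere_zero_iff_norm, norm_smul, norm_inv, norm_norm,
          inv_mul_cancel₀ (norm_ne_zero_iff.2 hv)]
      have h2 : P v₀ v₀ ≤ P ((‖v‖⁻¹ : ℝ) • v) ((‖v‖⁻¹ : ℝ) • v) := hmin h1
      simp only [map_smul, smul_apply, smul_eq_mul] at h2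
      have h3 : ‖v‖⁻¹ * (‖v‖⁻¹ * P v v) = P v v / ‖v‖ ^ 2 := by field_simp
      rw [h3, le_div_iff₀ (by positivity)] at h2
      exact h2

/-- A `C²` family of inner products gives `TensorData` on a small ball. -/
theorem exists_tensorData {g : E → E →L[ℝ] E →L[ℝ] ℝ} {T : Set E} (hTo : IsOpen T)
    (hg : ContDiffOn ℝ 2 g T) (hs : ∀ z ∈ T, ∀ v w, g z v w = g z w v)
    (hpos : ∀ z ∈ T, ∀ v, v ≠ 0 → 0 < g z v v) {z₀ : E} (hz₀ : z₀ ∈ T) :
    ∃ ρ > 0, ∃ l C G : ℝ, ball z₀ ρ ⊆ T ∧ ∀ ρ' ≤ ρ, TensorData g (ball z₀ ρ') l C G := by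
  obtain ⟨l₀, hl₀, hlow⟩ := exists_lower (hpos z₀ hz₀)
  have hgat : ContDiffAt ℝ 2 g z₀ := hg.contDiffAt (hTo.mem_nhds hz₀)
  obtain ⟨K1, K2, ρ₀, hρ₀, hL1, hL2⟩ := exists_second hgat
  have hclose : ∀ᶠ z in 𝓝 z₀, ‖g z - g z₀‖ < min (l₀ / 2) 1 :=
    eventually_close hgat (lt_min (by linarith) one_pos)
  obtain ⟨ρ, hρ, hsub⟩ := Metric.mem_nhds_iff.1
    (Filter.inter_mem (Filter.inter_mem (ball_mem_nhds z₀ hρ₀) (hTo.mem_nhds hz₀)) hclose)
  refine ⟨min ρ ρ₀, lt_min hρ hρ₀, l₀ / 2, max (K1 : ℝ) (2 * K2), ‖g z₀‖ + 1, ?_, ?_⟩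
  · exact fun z hz => (hsub (ball_subset_ball (min_le_left _ _) hz)).1.2
  intro ρ' hρ'
  have hsub' : ball z₀ ρ' ⊆ ball z₀ ρ := ball_subset_ball (hρ'.trans (min_le_left _ _))
  refine ⟨?_, ?_, ?_, ?_, ?_, ?_, ?_, ?_⟩
  · exact hg.continuousOn.mono fun z hz => (hsub (hsub' hz)).1.2
  · exact fun z hz => hs z (hsub (hsub' hz)).1.2
  · intro z hz v
    have h1 : ‖g z - g z₀‖ < min (l₀ / 2) 1 := (hsub (hsub' hz)).2
    have h2 : |(g z - g z₀) v v| ≤ ‖g z - g z₀‖ * ‖v‖ * ‖v‖ := by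
      simpa using (g z - g z₀).le_opNorm₂ v v
    have h3 : ‖g z - g z₀‖ * ‖v‖ * ‖v‖ ≤ l₀ / 2 * ‖v‖ * ‖v‖ := by
      have := h1.le.trans (min_le_left _ _)
      gcongr
    have h4 : (g z - g z₀) v v = g z v v - g z₀ v v := by simp
    rw [h4] at h2
    have h5 := neg_abs_le (g z v v - g z₀ v v)
    have h6 := hlow v
    nlinarith
  · intro z hz
    have h1 : ‖g z - g z₀‖ < min (l₀ / 2) 1 := (hsub (hsub' hz)).2
    have h2 := h1.le.trans (min_le_right _ _)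
    calc ‖g z‖ ≤ ‖g z₀‖ + ‖g z - g z₀‖ :=
          norm_le_add (F := E →L[ℝ] E →L[ℝ] ℝ) (g z) (g z₀)
      _ ≤ ‖g z₀‖ + 1 := by linarith
  · intro z hz z' hz'
    have h1 := hL1 z (hsub (hsub' hz)).1.1 z' (hsub (hsub' hz')).1.1
    refine h1.trans ?_
    gcongr
    exact le_max_left _ _
  · intro m b hm h1 h2
    have h3 := hL2 ρ' (hρ'.trans (min_le_right _ _)) m b hm h1 h2
    refine h3.trans ?_
    gcongr
    exact le_max_right _ _
  · linarith
  · exact le_max_of_le_left K1.2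

end Tensor

section Riemannian

variable {X : Type*} [MetricSpace X]

/-- Chart form of the hypothesis, with a family of bilinear forms. -/
def RiemannianNearForm (p : X) : Prop :=
  ∃ (n : ℕ) (ψ : OpenPartialHomeomorph X (Fin n → ℝ))
    (g : (Fin n → ℝ) → (Fin n → ℝ) →L[ℝ] (Fin n → ℝ) →L[ℝ] ℝ),
    p ∈ ψ.source ∧ ContDiffOn ℝ 2 g ψ.target ∧
    (∀ z ∈ ψ.target, ∀ v w, g z v w = g z w v) ∧
    (∀ z ∈ ψ.target, ∀ v, v ≠ 0 → 0 < g z v v) ∧
    ∀ q ∈ ψ.source, ∀ ε > 0, ∀ᶠ xy : X × X in 𝓝 (q, q),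
      |dist xy.1 xy.2 - √(g (ψ q) (ψ xy.1 - ψ xy.2) (ψ xy.1 - ψ xy.2))| ≤
        ε * √(g (ψ q) (ψ xy.1 - ψ xy.2) (ψ xy.1 - ψ xy.2))

/-- The length of the tangent vector `v` for the metric with coefficients `A i j`, that is the
square root of `∑ A i j v i v j`. -/
noncomputable def tensorNorm {n : ℕ} (A : Matrix (Fin n) (Fin n) ℝ) (v : Fin n → ℝ) : ℝ :=
  √(∑ i, ∑ j, A i j * v i * v j)

/-- `g` is a Riemannian metric tensor of class `C²` on the set `U` of `ℝⁿ`: the coefficients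
`g z i j` are `C²` functions of `z ∈ U`, symmetric and positive definite. -/
structure IsMetricTensor {n : ℕ} (g : (Fin n → ℝ) → Matrix (Fin n) (Fin n) ℝ)
    (U : Set (Fin n → ℝ)) : Prop where
  smooth : ∀ i j, ContDiffOn ℝ 2 (fun z => g z i j) U
  symm : ∀ z ∈ U, ∀ i j, g z i j = g z j i
  pos : ∀ z ∈ U, ∀ v : Fin n → ℝ, v ≠ 0 → 0 < ∑ i, ∑ j, g z i j * v i * v j

/-- Near the point `p` the distance of `X` is a Riemannian distance of class `C²`: there are a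
chart `ψ` around `p` with values in some `ℝⁿ` and a `C²` metric tensor `g` on its image such that,
for every point `q` of the domain of `ψ`, the quotient of `dist x y` and the length of `ψ x - ψ y`
for `g (ψ q)` tends to `1` as `x, y → q`. -/
def RiemannianNear (p : X) : Prop :=
  ∃ (n : ℕ) (ψ : OpenPartialHomeomorph X (Fin n → ℝ))
    (g : (Fin n → ℝ) → Matrix (Fin n) (Fin n) ℝ),
    p ∈ ψ.source ∧ IsMetricTensor g ψ.target ∧
    ∀ q ∈ ψ.source, ∀ ε > 0, ∀ᶠ xy : X × X in 𝓝 (q, q),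
      |dist xy.1 xy.2 - tensorNorm (g (ψ q)) (ψ xy.1 - ψ xy.2)| ≤
        ε * tensorNorm (g (ψ q)) (ψ xy.1 - ψ xy.2)

/-- the bilinear form of the coordinates `i`, `j` -/
noncomputable def coordForm (n : ℕ) (i j : Fin n) : (Fin n → ℝ) →L[ℝ] (Fin n → ℝ) →L[ℝ] ℝ :=
  (ContinuousLinearMap.proj (R := ℝ) (φ := fun _ : Fin n => ℝ) i).smulRight
    (ContinuousLinearMap.proj (R := ℝ) (φ := fun _ : Fin n => ℝ) j)

theorem coordForm_apply (n : ℕ) (i j : Fin n) (v w : Fin n → ℝ) :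
    coordForm n i j v w = v i * w j := by
  simp [coordForm]

/-- the bilinear form of a matrix -/
noncomputable def matForm {n : ℕ} (A : Matrix (Fin n) (Fin n) ℝ) :
    (Fin n → ℝ) →L[ℝ] (Fin n → ℝ) →L[ℝ] ℝ :=
  ∑ i, ∑ j, A i j • coordForm n i j

theorem matForm_apply {n : ℕ} (A : Matrix (Fin n) (Fin n) ℝ) (v w : Fin n → ℝ) :
    matForm A v w = ∑ i, ∑ j, A i j * v i * w j := by
  simp only [matForm, sum_apply, smul_apply, coordForm_apply, smul_eq_mul]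
  refine Finset.sum_congr rfl fun i _ => Finset.sum_congr rfl fun j _ => by ring

theorem contDiffOn_smul_fixed {E F : Type*} [NormedAddCommGroup E] [NormedSpace ℝ E]
    [NormedAddCommGroup F] [NormedSpace ℝ F] {f : E → ℝ} {U : Set E} (hf : ContDiffOn ℝ 2 f U)
    (T : F) : ContDiffOn ℝ 2 (fun z => f z • T) U :=
  hf.smul contDiffOn_const

theorem contDiffOn_matForm {n : ℕ} {g : (Fin n → ℝ) → Matrix (Fin n) (Fin n) ℝ}
    {U : Set (Fin n → ℝ)} (h : ∀ i j, ContDiffOn ℝ 2 (fun z => g z i j) U) :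
    ContDiffOn ℝ 2 (fun z => matForm (g z)) U := by
  unfold matForm
  apply ContDiffOn.sum
  intro i _
  apply ContDiffOn.sum
  intro j _
  exact contDiffOn_smul_fixed (h i j) (coordForm n i j)

theorem RiemannianNear.form {p : X} (h : RiemannianNear p) : RiemannianNearForm p := by
  obtain ⟨n, ψ, g, hp, hg, hd⟩ := h
  refine ⟨n, ψ, fun z => matForm (g z), hp, contDiffOn_matForm hg.smooth, ?_, ?_, ?_⟩
  · intro z hz v w
    rw [matForm_apply, matForm_apply, Finset.sum_comm]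
    refine Finset.sum_congr rfl fun j _ => Finset.sum_congr rfl fun i _ => ?_
    rw [hg.symm z hz i j]
    ring
  · intro z hz v hv
    rw [matForm_apply]
    exact hg.pos z hz v hv
  · intro q hq ε hε
    filter_upwards [hd q hq ε hε] with xy hxy
    simp only [matForm_apply]
    exact hxy

/-- clamping to `[-δ, δ]` -/
noncomputable def clamp (δ s : ℝ) : ℝ := max (-δ) (min s δ)

theorem clamp_mem {δ : ℝ} (hδ : 0 < δ) (s : ℝ) : clamp δ s ∈ Icc (-δ) δ := by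
  unfold clamp
  exact ⟨le_max_left _ _, max_le (by linarith) (min_le_right _ _)⟩

theorem clamp_of_mem {δ s : ℝ} (hs : s ∈ Icc (-δ) δ) : clamp δ s = s := by
  unfold clamp
  rw [min_eq_left hs.2, max_eq_right hs.1]

theorem clamp_nonpos {δ s : ℝ} (hδ : 0 < δ) (hs : s ≤ 0) : clamp δ s ≤ 0 := by
  unfold clamp
  exact max_le (by linarith) ((min_le_left _ _).trans hs)

theorem abs_clamp_sub_le (δ s s' : ℝ) : |clamp δ s - clamp δ s'| ≤ |s - s'| := by
  unfold clamp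
  calc |max (-δ) (min s δ) - max (-δ) (min s' δ)| ≤ |min s δ - min s' δ| := by
        have := abs_max_sub_max_le_abs (min s δ) (min s' δ) (-δ)
        rwa [max_comm (-δ), max_comm (-δ)]
    _ ≤ |s - s'| := by
        have := abs_min_sub_min_le_max s δ s' δ
        rw [sub_self, abs_zero, max_eq_left (abs_nonneg _)] at this
        exact this

/-- Minimal geodesics do not branch at a point near which the metric is Riemannian. -/
theorem nonBranchingAt_of_riemannianNear {p : X} (hp : RiemannianNear p) : NonBranchingAt p := by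
  obtain ⟨n, ψ, g, hpψ, hg, hs, hpos, hd⟩ := hp.form
  intro γ σ a b c hab hbc hγ hσ hγb heq
  set z₀ := ψ p with hz₀
  have hz₀T : z₀ ∈ ψ.target := ψ.map_source hpψ
  obtain ⟨ρ₁, hρ₁, l, C, G, hρ₁T, hT⟩ := exists_tensorData ψ.open_target hg hs hpos hz₀T
  have hT1 := hT ρ₁ le_rfl
  have hl := hT1.l_pos
  have hz₀b : z₀ ∈ ball z₀ ρ₁ := mem_ball_self hρ₁
  -- a neighbourhood where the distance is comparable
  have hd1 := hd p hpψ (1 / 2) (by norm_num)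
  rw [nhds_prod_eq] at hd1
  obtain ⟨W, hW, hWd⟩ := Filter.mem_prod_self_iff.1 hd1
  have hup : ∀ x ∈ W, ∀ y ∈ W, dist x y ≤ (3 / 2 * √G) * ‖ψ x - ψ y‖ := by
    intro x hx y hy
    have h1 : |dist x y - √(g z₀ (ψ x - ψ y) (ψ x - ψ y))| ≤
        1 / 2 * √(g z₀ (ψ x - ψ y) (ψ x - ψ y)) := hWd (mk_mem_prod hx hy)
    have h2 := (abs_le.1 h1).2
    have h3 : √(g z₀ (ψ x - ψ y) (ψ x - ψ y)) ≤ √G * ‖ψ x - ψ y‖ := by
      rw [← Real.sqrt_sq (norm_nonneg (ψ x - ψ y)), ← Real.sqrt_mul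
        ((norm_nonneg (g z₀)).trans (hT1.upper _ hz₀b))]
      apply Real.sqrt_le_sqrt
      have h4 : |g z₀ (ψ x - ψ y) (ψ x - ψ y)| ≤ ‖g z₀‖ * ‖ψ x - ψ y‖ * ‖ψ x - ψ y‖ := by
        simpa using (g z₀).le_opNorm₂ (ψ x - ψ y) (ψ x - ψ y)
      have h5 := le_abs_self (g z₀ (ψ x - ψ y) (ψ x - ψ y))
      have h6 : ‖g z₀‖ * ‖ψ x - ψ y‖ * ‖ψ x - ψ y‖ ≤ G * ‖ψ x - ψ y‖ * ‖ψ x - ψ y‖ := by
        have := hT1.upper _ hz₀b
        gcongr
      nlinarith
    nlinarith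
  have hlow : ∀ x ∈ W, ∀ y ∈ W, ‖ψ x - ψ y‖ ≤ (2 / √l) * dist x y := by
    intro x hx y hy
    have h1 : |dist x y - √(g z₀ (ψ x - ψ y) (ψ x - ψ y))| ≤
        1 / 2 * √(g z₀ (ψ x - ψ y) (ψ x - ψ y)) := hWd (mk_mem_prod hx hy)
    have h2 := (abs_le.1 h1).1
    have h3 : √l * ‖ψ x - ψ y‖ ≤ √(g z₀ (ψ x - ψ y) (ψ x - ψ y)) := by
      conv_lhs => rw [← Real.sqrt_sq (norm_nonneg (ψ x - ψ y)), ← Real.sqrt_mul hl.le]
      exact Real.sqrt_le_sqrt (hT1.lower _ hz₀b _)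
    have h4 : √l * ‖ψ x - ψ y‖ ≤ 2 * dist x y := by
      linarith
    rw [div_mul_eq_mul_div, le_div_iff₀ (Real.sqrt_pos.2 hl)]
    linarith
  -- the ball of the chart
  have hsymm : ContinuousAt ψ.symm z₀ := ψ.continuousAt_symm hz₀T
  have hW' : ψ.symm ⁻¹' W ∈ 𝓝 z₀ := by
    apply hsymm.preimage_mem_nhds
    rw [hz₀, ψ.left_inv hpψ]
    exact hW
  obtain ⟨ρ₂, hρ₂, hsub₂⟩ := Metric.mem_nhds_iff.1 hW'
  set ρ := min ρ₁ ρ₂ with hρdef
  have hρ : 0 < ρ := lt_min hρ₁ hρ₂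
  have hTρ := hT ρ (min_le_left _ _)
  have hbT : ball z₀ ρ ⊆ ψ.target := (ball_subset_ball (min_le_left _ _)).trans hρ₁T
  have hbW : ∀ z ∈ ball z₀ ρ, ψ.symm z ∈ W := fun z hz =>
    hsub₂ (ball_subset_ball (min_le_right _ _) hz)
  have hφ : ∀ z ∈ ball z₀ ρ, ∀ z' ∈ ball z₀ ρ,
      dist (ψ.symm z) (ψ.symm z') ≤ (⟨3 / 2 * √G, by positivity⟩ : ℝ≥0) * ‖z - z'‖ := by
    intro z hz z' hz'
    have h1 := hup _ (hbW z hz) _ (hbW z' hz')
    rwa [ψ.right_inv (hbT hz), ψ.right_inv (hbT hz')] at h1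
  have hinf : ∀ z ∈ ball z₀ ρ, ∀ ε > 0, ∀ᶠ z' in 𝓝 z,
      (1 - ε) * nrm (g z) (z' - z) ≤ dist (ψ.symm z') (ψ.symm z) ∧
      dist (ψ.symm z') (ψ.symm z) ≤ (1 + ε) * nrm (g z) (z' - z) := by
    intro z hz ε hε
    have hzT := hbT hz
    have h1 := hd (ψ.symm z) (ψ.map_target hzT) ε hε
    have h2 : Tendsto (fun z' => (ψ.symm z', ψ.symm z)) (𝓝 z) (𝓝 (ψ.symm z, ψ.symm z)) := by
      have h3 : Tendsto ψ.symm (𝓝 z) (𝓝 (ψ.symm z)) := ψ.continuousAt_symm hzT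
      exact h3.prodMk_nhds tendsto_const_nhds
    filter_upwards [h2.eventually h1, ψ.open_target.mem_nhds hzT] with z' hz' hz'T
    simp only [ψ.right_inv hzT, ψ.right_inv hz'T] at hz'
    have h4 := abs_le.1 hz'
    unfold nrm
    constructor
    · linarith [h4.1]
    · linarith [h4.2]
  -- the time interval
  have hσb : σ b = p := by rw [← heq b ⟨hab.le, le_rfl⟩]; exact hγb
  have hnear : ∀ x : ℝ → X, GeodOn x a c → x b = p → ∀ᶠ r in 𝓝 b,
      x r ∈ W ∧ x r ∈ ψ.source ∧ ψ (x r) ∈ ball z₀ (ρ / 4) := by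
    intro x hx hxb
    have hcx : ContinuousAt x b :=
      hx.continuousOn.continuousAt (Icc_mem_nhds hab hbc)
    have h1 : ∀ᶠ y in 𝓝 (x b), y ∈ W ∧ y ∈ ψ.source ∧ ψ y ∈ ball z₀ (ρ / 4) := by
      rw [hxb]
      have h2 : ∀ᶠ y in 𝓝 p, ψ y ∈ ball z₀ (ρ / 4) :=
        (ψ.continuousAt hpψ).eventually (ball_mem_nhds _ (by linarith))
      have h3 : ∀ᶠ y in 𝓝 p, y ∈ W := hW
      have h4 : ∀ᶠ y in 𝓝 p, y ∈ ψ.source := ψ.open_source.mem_nhds hpψ
      exact h3.and (h4.and h2)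
    exact hcx.eventually h1
  have hall := ((hnear γ hγ hγb).and (hnear σ hσ hσb)).and
    (Icc_mem_nhds hab hbc : Icc a c ∈ 𝓝 b)
  obtain ⟨δ₀, hδ₀, hδ₀s⟩ := Metric.eventually_nhds_iff.1 hall
  set δ := δ₀ / 2 with hδdef
  have hδ : 0 < δ := by positivity
  have hin : ∀ r ∈ Icc (-δ) δ, ((γ (b + r) ∈ W ∧ γ (b + r) ∈ ψ.source ∧
      ψ (γ (b + r)) ∈ ball z₀ (ρ / 4)) ∧ (σ (b + r) ∈ W ∧ σ (b + r) ∈ ψ.source ∧
      ψ (σ (b + r)) ∈ ball z₀ (ρ / 4))) ∧ b + r ∈ Icc a c := by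
    intro r hr
    apply hδ₀s
    rw [Real.dist_eq, add_sub_cancel_left, abs_lt]
    constructor <;> linarith [hr.1, hr.2]
  -- the curves in the chart
  let K : ℝ≥0 := ⟨2 / √l, by positivity⟩
  have hlip : ∀ x : ℝ → X, GeodOn x a c → (∀ r ∈ Icc (-δ) δ, x (b + r) ∈ W) →
      LipschitzWith K (fun s => ψ (x (b + clamp δ s))) := by
    intro x hx hxW
    apply LipschitzWith.of_dist_le_mul
    intro s s'
    have h1 := hlow _ (hxW _ (clamp_mem hδ s)) _ (hxW _ (clamp_mem hδ s'))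
    rw [← dist_eq_norm, hx _ (hin _ (clamp_mem hδ s)).2 _ (hin _ (clamp_mem hδ s')).2] at h1
    refine h1.trans ?_
    change 2 / √l * _ ≤ 2 / √l * _
    have h2 : |b + clamp δ s - (b + clamp δ s')| ≤ dist s s' := by
      rw [add_sub_add_left_eq_sub, Real.dist_eq]
      exact abs_clamp_sub_le δ s s'
    gcongr
  have hgeo : ∀ x : ℝ → X, GeodOn x a c → (∀ r ∈ Icc (-δ) δ, x (b + r) ∈ ψ.source) →
      ∀ s ∈ Icc (-δ) δ, ∀ s' ∈ Icc (-δ) δ,
        dist (ψ.symm (ψ (x (b + clamp δ s)))) (ψ.symm (ψ (x (b + clamp δ s')))) = |s - s'| := by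
    intro x hx hxs s hs s' hs'
    rw [clamp_of_mem hs, clamp_of_mem hs', ψ.left_inv (hxs s hs), ψ.left_inv (hxs s' hs'),
      hx _ (hin s hs).2 _ (hin s' hs').2, add_sub_add_left_eq_sub]
  obtain ⟨ε, hε, hεδ, hfin⟩ := coord_nonBranching hTρ hφ hinf
    (hlip γ hγ fun r hr => (hin r hr).1.1.1) (hlip σ hσ fun r hr => (hin r hr).1.2.1)
    (fun s => (hin _ (clamp_mem hδ s)).1.1.2.2) (fun s => (hin _ (clamp_mem hδ s)).1.2.2.2) hδ
    (hgeo γ hγ fun r hr => (hin r hr).1.1.2.1) (hgeo σ hσ fun r hr => (hin r hr).1.2.2.1)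
    (by
      intro s hs
      have h1 := (hin _ (clamp_mem hδ s)).2
      rw [heq (b + clamp δ s) ⟨h1.1, by linarith [clamp_nonpos hδ hs]⟩])
  refine ⟨ε, hε, fun s hs _ => ?_⟩
  have hr : s - b ∈ Icc (-δ) δ := ⟨by linarith [hs.1], by linarith [hs.2]⟩
  have h1 := hfin (s - b) ⟨by linarith [hs.1], by linarith [hs.2]⟩
  simp only [clamp_of_mem hr, add_sub_cancel] at h1
  have h2 := (hin _ hr).1
  rw [add_sub_cancel] at h2
  exact ψ.injOn h2.1.2.1 h2.2.2.1 h1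

end Riemannian

end KEReg
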