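import Pool.Agent.KEReg.Geo

/-!
# Small spheres around singular points, and locality
-/

open Set Metric Filter Topology

namespace KEReg

variable {X : Type*} [MetricSpace X]

theorem diam_sphere_le (p : X) {r : ℝ} (hr : 0 ≤ r) : diam (sphere p r) ≤ 2 * r := by
  apply diam_le_of_forall_dist_le (by linarith)
  intro x hx y hy
  have h1 : dist x p = r := hx
  have h2 : dist y p = r := hy
  have := dist_triangle_right x y p
  linarith

/-- equality in the triangle inequality through `p` is inherited by all smaller spheres -/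
theorem diam_sphere_eq (hX : IsGeodesicSpace X) {x y p : X}
    (h : dist x p + dist p y = dist x y) {r : ℝ} (hr : 0 < r) (h1 : r ≤ dist x p)
    (h2 : r ≤ dist p y) : diam (sphere p r) = 2 * r := by
  apply le_antisymm (diam_sphere_le p hr.le)
  obtain ⟨γ, hγ, h3, h4, h5⟩ := hX.through h
  have hm : dist x p ∈ Icc 0 (dist x y) := ⟨dist_nonneg, by linarith⟩
  have hm1 : dist x p - r ∈ Icc 0 (dist x y) := ⟨by linarith, by linarith⟩
  have hm2 : dist x p + r ∈ Icc 0 (dist x y) := ⟨by linarith, by linarith⟩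
  have e1 : dist (γ (dist x p - r)) p = r := by
    have e := hγ _ hm1 _ hm
    rw [h5, abs_of_nonpos (by linarith)] at e
    rw [e]
    ring
  have e2 : dist (γ (dist x p + r)) p = r := by
    have e := hγ _ hm2 _ hm
    rw [h5, abs_of_nonneg (by linarith)] at e
    rw [e]
    ring
  have e3 : dist (γ (dist x p - r)) (γ (dist x p + r)) = 2 * r := by
    rw [hγ _ hm1 _ hm2, abs_of_nonpos (by linarith)]
    ring
  rw [← e3]
  exact dist_le_diam_of_mem isBounded_sphere e1 e2

/-- the diameter of a sphere in a proper space is attained -/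
theorem exists_diam_sphere [ProperSpace X] {p : X} {r : ℝ} (hr : 0 < r)
    (h : diam (sphere p r) = 2 * r) : ∃ x y : X, dist x p = r ∧ dist p y = r ∧
      dist x p + dist p y = dist x y := by
  have hne : (sphere p r).Nonempty := by
    by_contra hcon
    rw [not_nonempty_iff_eq_empty] at hcon
    rw [hcon, diam_empty] at h
    linarith
  have hc : IsCompact (sphere p r ×ˢ sphere p r) := (isCompact_sphere p r).prod
    (isCompact_sphere p r)
  have hcont : Continuous fun xy : X × X => dist xy.1 xy.2 := by fun_prop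
  obtain ⟨⟨x, y⟩, ⟨hx, hy⟩, hmax⟩ := hc.exists_isMaxOn (hne.prod hne) hcont.continuousOn
  have h1 : diam (sphere p r) ≤ dist x y := by
    apply diam_le_of_forall_dist_le dist_nonneg
    intro a ha b hb
    exact hmax (mk_mem_prod ha hb)
  have hx' : dist x p = r := hx
  have hy' : dist p y = r := by rw [dist_comm]; exact hy
  refine ⟨x, y, hx', hy', ?_⟩
  have := dist_triangle x p y
  rw [hx', hy'] at this
  rw [hx', hy']
  linarith

/-- if every point outside `R` has arbitrarily small spheres of diameter less than twice the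
radius, then every minimal geodesic between points of `R` stays in `R` -/
theorem strong_of_sphere (hX : IsGeodesicSpace X) {R : Set X}
    (h : ∀ p, p ∉ R → ∀ ε > 0, ∃ r, 0 < r ∧ r < ε ∧ diam (sphere p r) < 2 * r) :
    ∀ x ∈ R, ∀ y ∈ R, Strong R x y := by
  intro x hx y hy
  rw [strong_iff_dist hX]
  intro p hp
  by_contra hcon
  push Not at hcon
  have heq : dist x p + dist p y = dist x y := le_antisymm hcon (dist_triangle _ _ _)
  have h1 : 0 < dist x p := dist_pos.2 fun hxp => hp (hxp ▸ hx)
  have h2 : 0 < dist p y := dist_pos.2 fun hpy => hp (hpy ▸ hy)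
  obtain ⟨r, hr0, hr1, hr2⟩ := h p hp (min (dist x p) (dist p y)) (lt_min h1 h2)
  have := diam_sphere_eq hX heq hr0 (hr1.le.trans (min_le_left _ _))
    (hr1.le.trans (min_le_right _ _))
  linarith

/-- all or nothing for the small spheres around any point -/
theorem sphere_dichotomy [ProperSpace X] (hX : IsGeodesicSpace X) (p : X) :
    (∃ r₀ > 0, ∀ r, 0 < r → r < r₀ → diam (sphere p r) = 2 * r) ∨
    (∀ r, 0 < r → diam (sphere p r) < 2 * r) := by
  by_cases hcon : ∃ r₀ > 0, diam (sphere p r₀) = 2 * r₀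
  · left
    obtain ⟨r₀, hr₀, h⟩ := hcon
    refine ⟨r₀, hr₀, fun r hr hrr => ?_⟩
    obtain ⟨x, y, h1, h2, h3⟩ := exists_diam_sphere hr₀ h
    exact diam_sphere_eq hX h3 hr (by rw [h1]; exact hrr.le) (by rw [h2]; exact hrr.le)
  · right
    push Not at hcon
    intro r hr
    exact lt_of_le_of_ne (diam_sphere_le p hr.le) (hcon r hr)

/-- isolated points of the complement -/
theorem sphere_of_isolated [ProperSpace X] (hX : IsGeodesicSpace X) {R : Set X}
    (hs : ∀ x ∈ R, ∀ y ∈ R, Strong R x y) {p : X} (hp : p ∉ R) {ε : ℝ}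
    (hiso : ∀ q, q ∉ R → dist q p < ε → q = p) : ∀ r, 0 < r → r < ε →
      diam (sphere p r) < 2 * r := by
  intro r hr hrε
  refine lt_of_le_of_ne (diam_sphere_le p hr.le) fun hcon => ?_
  obtain ⟨x, y, h1, h2, h3⟩ := exists_diam_sphere hr hcon
  have hx : x ∈ R := by
    by_contra hx
    have := hiso x hx (by rw [h1]; exact hrε)
    rw [this, dist_self] at h1
    linarith
  have hy : y ∈ R := by
    by_contra hy
    have := hiso y hy (by rw [dist_comm, h2]; exact hrε)
    rw [this, dist_self] at h2
    linarith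
  have := (strong_iff_dist hX).1 (hs x hx y hy) p hp
  linarith

/-- Locality: if the complement of `R` contains no minimal geodesic with distinct endpoints, then
it is enough to look at pairs close to a point of the complement. -/
theorem strong_of_local {R : Set X} (hR : IsOpen R)
    (hseg : ∀ x y : X, x ≠ y → ∀ c : Path x y, IsMinimal c → ¬ range c ⊆ Rᶜ)
    (hloc : ∀ p, p ∉ R → ∃ ε > 0, ∀ x ∈ R, ∀ y ∈ R, dist x p < ε → dist p y < ε →
      dist x y < dist x p + dist p y) :
    ∀ x ∈ R, ∀ y ∈ R, Strong R x y := by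
  intro x hx y hy
  rw [strong_iff]
  intro γ hγ h0 h1
  set L := dist x y with hL
  have hL0 : 0 ≤ L := dist_nonneg
  by_contra hcon
  push Not at hcon
  obtain ⟨s₀, hs₀, hs₀R⟩ := hcon
  let K : Set ℝ := Icc 0 L ∩ γ ⁻¹' Rᶜ
  have hK : IsClosed K :=
    hγ.continuousOn.preimage_isClosed_of_isClosed isClosed_Icc hR.isClosed_compl
  have hKc : IsCompact K := isCompact_Icc.of_isClosed_subset hK inter_subset_left
  obtain ⟨t, htK, htmin⟩ := hKc.exists_isLeast ⟨s₀, hs₀, hs₀R⟩
  have ht0 : 0 < t := by
    rcases htK.1.1.eq_or_lt with h | h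
    · exfalso; apply htK.2; rw [← h, h0]; exact hx
    · exact h
  have htL : t < L := by
    rcases htK.1.2.eq_or_lt with h | h
    · exfalso; apply htK.2; rw [h, h1]; exact hy
    · exact h
  obtain ⟨ε, hε, hloc'⟩ := hloc (γ t) htK.2
  -- a time before `t`
  set s := max 0 (t - ε / 2) with hs
  have hs0 : 0 ≤ s := le_max_left _ _
  have hst : s < t := max_lt ht0 (by linarith)
  have hsε : t - s < ε := by
    have : t - ε / 2 ≤ s := le_max_right _ _
    linarith
  have hsR : γ s ∈ R := by
    by_contra hc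
    have := htmin ⟨⟨hs0, hst.le.trans htL.le⟩, hc⟩
    linarith
  -- a time after `t`
  set e := min L (t + ε / 2) with he
  have hte : t < e := lt_min htL (by linarith)
  have heL : e ≤ L := min_le_left _ _
  have heε : e - t < ε := by
    have : e ≤ t + ε / 2 := min_le_right _ _
    linarith
  have hgeo : GeodOn γ t e := hγ.mono ht0.le heL
  have hdte : dist (γ t) (γ e) = e - t := by
    rw [hγ t ⟨ht0.le, htL.le⟩ e ⟨ht0.le.trans hte.le, heL⟩, abs_of_nonpos (by linarith)]
    ring
  obtain ⟨r, hr, hrR⟩ : ∃ r ∈ Icc t e, γ r ∈ R := by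
    by_contra hc
    push Not at hc
    have hgeo' : GeodOn (fun r => γ (r + t)) 0 (dist (γ t) (γ e)) := by
      intro a ha b hb
      rw [hdte] at ha hb
      rw [hγ _ ⟨by linarith [ha.1], by linarith [ha.2]⟩ _
        ⟨by linarith [hb.1], by linarith [hb.2]⟩]
      congr 1; ring
    obtain ⟨c, hc1, hc2⟩ := hgeo'.exists_path (by simp) (by
      rw [hdte]; congr 1; ring)
    have hne : γ t ≠ γ e := by
      intro h
      rw [h, dist_self] at hdte
      linarith
    apply hseg _ _ hne c hc1
    rw [hc2]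
    rintro _ ⟨a, ha, rfl⟩
    rw [hdte] at ha
    exact hc (a + t) ⟨by linarith [ha.1], by linarith [ha.2]⟩
  have hrt : t < r := by
    rcases hr.1.eq_or_lt with h | h
    · exfalso; apply htK.2; rw [h]; exact hrR
    · exact h
  have hrL : r ≤ L := hr.2.trans heL
  have d1 : dist (γ s) (γ t) = t - s := by
    rw [hγ s ⟨hs0, hst.le.trans htL.le⟩ t ⟨ht0.le, htL.le⟩, abs_of_nonpos (by linarith)]
    ring
  have d2 : dist (γ t) (γ r) = r - t := by
    rw [hγ t ⟨ht0.le, htL.le⟩ r ⟨ht0.le.trans hrt.le, hrL⟩, abs_of_nonpos (by linarith)]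
    ring
  have d3 : dist (γ s) (γ r) = r - s := by
    rw [hγ s ⟨hs0, hst.le.trans htL.le⟩ r ⟨ht0.le.trans hrt.le, hrL⟩,
      abs_of_nonpos (by linarith)]
    ring
  have := hloc' (γ s) hsR (γ r) hrR (by rw [d1]; exact hsε) (by rw [d2]; linarith [hr.2])
  rw [d1, d2, d3] at this
  linarith

end KEReg
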